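import Pool.Agent.DRB.Desca
import Pool.Agent.DRB.Descq
import Pool.Agent.DRB.Aut1
import Pool.Agent.DRB.AUT2

/-!
# Subspaces defined over a subfield are cut out by linear forms over the subfield
-/

open scoped BigOperators
open Matrix

namespace Pool.Agent.K3T

open Pool.Agent.DRB

noncomputable section

variable {κ : Type} [Fintype κ]

/-- the annihilator -/
def Ann (D : Submodule ℂ (κ → ℂ)) : Submodule ℂ (κ → ℂ) where
  carrier := {M | ∀ v ∈ D, ∑ k, M k * v k = 0}
  zero_mem' := by
    intro v _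
    simp
  add_mem' := by
    intro a b ha hb v hv
    have h1 := ha v hv
    have h2 := hb v hv
    have : ∑ k, (a + b) k * v k = ∑ k, a k * v k + ∑ k, b k * v k := by
      rw [← Finset.sum_add_distrib]
      exact Finset.sum_congr rfl fun k _ => by rw [Pi.add_apply, add_mul]
    rw [this, h1, h2, add_zero]
  smul_mem' := by
    intro c a ha v hv
    have h1 := ha v hv
    have : ∑ k, (c • a) k * v k = c * ∑ k, a k * v k := by
      rw [Finset.mul_sum]
      exact Finset.sum_congr rfl fun k _ => by rw [Pi.smul_apply, smul_eq_mul, mul_assoc]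
    rw [this, h1, mul_zero]

theorem mem_of_ann (D : Submodule ℂ (κ → ℂ)) (v : κ → ℂ) (h : ∀ M ∈ Ann D, ∑ k, M k * v k = 0) : v ∈ D := by
  classical
  by_contra hv
  obtain ⟨φ, hφ, hD⟩ := Submodule.exists_le_ker_of_notMem hv
  have ha : ∀ w, φ w = ∑ k, φ (Pi.single k 1) * w k := by
    intro w
    have h1 : w = ∑ k, w k • (Pi.single k (1 : ℂ) : κ → ℂ) := by
      funext r
      rw [Finset.sum_apply, Finset.sum_eq_single r]
      · rw [Pi.smul_apply, Pi.single_eq_same, smul_eq_mul, mul_one]
      · intro b _ hb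
        rw [Pi.smul_apply, Pi.single_eq_of_ne (Ne.symm hb), smul_zero]
      · intro hr
        exact absurd (Finset.mem_univ r) hr
    conv_lhs => rw [h1]
    rw [map_sum]
    exact Finset.sum_congr rfl fun k _ => by rw [map_smul, smul_eq_mul, mul_comm]
  apply hφ
  rw [ha]
  refine h (fun k => φ (Pi.single k 1)) fun w hw => ?_
  rw [← ha]
  exact hD hw

theorem ann_stable (D : Submodule ℂ (κ → ℂ)) (σ : ℂ ≃ₐ[ℚ] ℂ) (h : ∀ v ∈ D, (fun k => σ.symm (v k)) ∈ D)
    (M : κ → ℂ) (hM : M ∈ Ann D) : (fun k => σ (M k)) ∈ Ann D := by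
  intro v hv
  have h1 := congrArg σ (hM _ (h v hv))
  rw [map_zero, map_sum] at h1
  rw [← h1]
  exact Finset.sum_congr rfl fun k _ => by rw [map_mul, AlgEquiv.apply_symm_apply]

/-- Rational linear forms. -/
theorem mem_iff_Q (D : Submodule ℂ (κ → ℂ)) (h : ∀ (σ : ℂ ≃ₐ[ℚ] ℂ), ∀ v ∈ D, (fun k => σ (v k)) ∈ D)
    (v : κ → ℂ) : v ∈ D ↔ ∀ M : κ → ℚ, (∀ w ∈ D, ∑ k, (M k : ℂ) * w k = 0) → ∑ k, (M k : ℂ) * v k = 0 := by
  constructor
  · intro hv M hM
    exact hM v hv
  · intro hv
    refine mem_of_ann D v fun M hM => ?_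
    have h1 := descq_proof aut1_proof κ (Ann D) (fun σ M hM => ann_stable D σ (fun v hv => h σ.symm v hv) M hM) hM
    clear hM
    induction h1 using Submodule.span_induction with
    | mem x hx =>
      obtain ⟨hx1, hx2⟩ := hx
      choose q hq using hx2
      have h2 := hv q fun w hw => by
        have := hx1 w hw
        rw [← this]
        exact Finset.sum_congr rfl fun k _ => by rw [hq k]
      rw [← h2]
      exact Finset.sum_congr rfl fun k _ => by rw [hq k]
    | zero => simp
    | add a b _ _ ha hb =>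
      have : ∑ k, (a + b) k * v k = ∑ k, a k * v k + ∑ k, b k * v k := by
        rw [← Finset.sum_add_distrib]
        exact Finset.sum_congr rfl fun k _ => by rw [Pi.add_apply, add_mul]
      rw [this, ha, hb, add_zero]
    | smul c a _ ha =>
      have : ∑ k, (c • a) k * v k = c * ∑ k, a k * v k := by
        rw [Finset.mul_sum]
        exact Finset.sum_congr rfl fun k _ => by rw [Pi.smul_apply, smul_eq_mul, mul_assoc]
      rw [this, ha, mul_zero]

/-- Linear forms with algebraic coefficients. -/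
theorem mem_iff_A (D : Submodule ℂ (κ → ℂ)) (h : ∀ τ ∈ GalA, ∀ v ∈ D, (fun k => τ (v k)) ∈ D)
    (hsymm : ∀ τ ∈ GalA, τ.symm ∈ GalA) (v : κ → ℂ) : v ∈ D ↔ ∀ M : κ → ℂ, (∀ k, IsAlgebraic ℚ (M k)) →
      (∀ w ∈ D, ∑ k, M k * w k = 0) → ∑ k, M k * v k = 0 := by
  constructor
  · intro hv M _ hM
    exact hM v hv
  · intro hv
    refine mem_of_ann D v fun M hM => ?_
    have h1 := desca_proof aut2_proof κ (Ann D) (fun τ hτ M hM => ann_stable D τ (fun v hv => h τ.symm (hsymm τ hτ) v hv) M hM) hM
    clear hM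
    induction h1 using Submodule.span_induction with
    | mem x hx =>
      obtain ⟨hx1, hx2⟩ := hx
      exact hv x hx2 hx1
    | zero => simp
    | add a b _ _ ha hb =>
      have : ∑ k, (a + b) k * v k = ∑ k, a k * v k + ∑ k, b k * v k := by
        rw [← Finset.sum_add_distrib]
        exact Finset.sum_congr rfl fun k _ => by rw [Pi.add_apply, add_mul]
      rw [this, ha, hb, add_zero]
    | smul c a _ ha =>
      have : ∑ k, (c • a) k * v k = c * ∑ k, a k * v k := by
        rw [Finset.mul_sum]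
        exact Finset.sum_congr rfl fun k _ => by rw [Pi.smul_apply, smul_eq_mul, mul_assoc]
      rw [this, ha, mul_zero]

end

end Pool.Agent.K3T
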