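import Pool.Agent.ABH.Kit

/-!
# Quadratic tensors
-/

open scoped BigOperators
open Matrix

namespace Pool.Agent.K3T

open Pool.Agent.DRB Pool.Agent.ABH

noncomputable section

variable {ι : Type} [Fintype ι] {n : ℕ}

theorem quad_inv (s : Matrix (Fin n) (Fin n) ℂ) (q : Fin n → ℂ) (hq : ∀ i, q i ≠ 0)
    (hs : s * Matrix.diagonal q * sᵀ = Matrix.diagonal q) (u v : Fin n → ℂ) :
    ∑ i, (q i)⁻¹ * ((s *ᵥ u) i * (s *ᵥ v) i) = ∑ i, (q i)⁻¹ * (u i * v i) := by
  have e1 : Matrix.diagonal q * Matrix.diagonal (fun i => (q i)⁻¹) = 1 := by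
    rw [Matrix.diagonal_mul_diagonal, ← Matrix.diagonal_one]
    congr 1
    funext i
    exact mul_inv_cancel₀ (hq i)
  have e2 : Matrix.diagonal (fun i => (q i)⁻¹) * Matrix.diagonal q = 1 := mul_eq_one_comm.mp e1
  have h1 : s * (Matrix.diagonal q * sᵀ * Matrix.diagonal (fun i => (q i)⁻¹)) = 1 := by
    calc _ = (s * Matrix.diagonal q * sᵀ) * Matrix.diagonal (fun i => (q i)⁻¹) := by
          simp only [Matrix.mul_assoc]
      _ = 1 := by rw [hs, e1]
  have h2 := mul_eq_one_comm.mp h1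
  have h3 : sᵀ * Matrix.diagonal (fun i => (q i)⁻¹) * s = Matrix.diagonal (fun i => (q i)⁻¹) := by
    calc _ = (Matrix.diagonal (fun i => (q i)⁻¹) * Matrix.diagonal q) *
          (sᵀ * Matrix.diagonal (fun i => (q i)⁻¹) * s) := by rw [e2, Matrix.one_mul]
      _ = Matrix.diagonal (fun i => (q i)⁻¹) *
          (Matrix.diagonal q * sᵀ * Matrix.diagonal (fun i => (q i)⁻¹) * s) := by
          simp only [Matrix.mul_assoc]
      _ = _ := by rw [h2, Matrix.mul_one]
  have h4 : ∀ a b : Fin n → ℂ, ∑ i, (q i)⁻¹ * (a i * b i) =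
      a ⬝ᵥ (Matrix.diagonal (fun i => (q i)⁻¹) *ᵥ b) := by
    intro a b
    rw [dotProduct]
    refine Finset.sum_congr rfl fun i _ => ?_
    rw [Matrix.mulVec_diagonal]
    ring
  rw [h4, h4, Matrix.mulVec_mulVec, Matrix.dotProduct_mulVec, ← Matrix.vecMul_transpose,
    Matrix.vecMul_vecMul, ← Matrix.mul_assoc, h3, ← Matrix.dotProduct_mulVec]

/-- change of basis -/
theorem change {N N' : Fin n → Matrix ι ι ℂ} {q : Fin n → ℂ} {E : Matrix ι ι ℂ} (hE : E ≠ 0)
    (h1 : ∀ i j, N i * N j + N j * N i = (if i = j then 2 * q i else 0) • E)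
    (h2 : ∀ i j, N' i * N' j + N' j * N' i = (if i = j then 2 * q i else 0) • E)
    (h3 : ∀ i, N' i ∈ Submodule.span ℂ (Set.range N)) :
    ∃ s : Matrix (Fin n) (Fin n) ℂ, (∀ i, N' i = ∑ j, s i j • N j) ∧
      s * Matrix.diagonal q * sᵀ = Matrix.diagonal q := by
  have h4 : ∀ i, ∃ c : Fin n → ℂ, ∑ j, c j • N j = N' i := fun i =>
    (Submodule.mem_span_range_iff_exists_fun ℂ).1 (h3 i)
  choose s hs using h4
  refine ⟨Matrix.of s, fun i => (hs i).symm, ?_⟩
  have key : ∀ i j, N' i * N' j + N' j * N' i = (∑ k, s i k * s j k * (2 * q k)) • E := by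
    intro i j
    have e1 : N' i * N' j = ∑ k, ∑ l, (s i k * s j l) • (N k * N l) := by
      rw [← hs i, ← hs j, Finset.sum_mul]
      refine Finset.sum_congr rfl fun k _ => ?_
      rw [Finset.mul_sum]
      refine Finset.sum_congr rfl fun l _ => ?_
      rw [Matrix.smul_mul, Matrix.mul_smul, smul_smul]
    have e2 : N' j * N' i = ∑ k, ∑ l, (s i k * s j l) • (N l * N k) := by
      rw [← hs i, ← hs j, Finset.mul_sum]
      refine Finset.sum_congr rfl fun k _ => ?_
      rw [Finset.sum_mul]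
      refine Finset.sum_congr rfl fun l _ => ?_
      rw [Matrix.smul_mul, Matrix.mul_smul, smul_smul, mul_comm]
    rw [e1, e2, ← Finset.sum_add_distrib, Finset.sum_smul]
    refine Finset.sum_congr rfl fun k _ => ?_
    rw [← Finset.sum_add_distrib, Finset.sum_eq_single k]
    · rw [← smul_add, h1, if_pos rfl, smul_smul]
    · intro l _ hl
      rw [← smul_add, h1, if_neg (Ne.symm hl), zero_smul, smul_zero]
    · intro h
      exact absurd (Finset.mem_univ _) h
  ext i j
  have h5 := (key i j).symm.trans (h2 i j)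
  have h6 : ∑ k, s i k * s j k * (2 * q k) = if i = j then 2 * q i else 0 := by
    have h7 : (∑ k, s i k * s j k * (2 * q k) - if i = j then 2 * q i else 0) • E = 0 := by
      rw [sub_smul, h5, sub_self]
    exact sub_eq_zero.1 ((smul_eq_zero.1 h7).resolve_right hE)
  have h8 : (Matrix.of s * Matrix.diagonal q * (Matrix.of s)ᵀ) i j = ∑ k, s i k * q k * s j k := by
    rw [Matrix.mul_apply]
    refine Finset.sum_congr rfl fun k _ => ?_
    rw [Matrix.mul_diagonal]
    rfl
  rw [h8, Matrix.diagonal_apply]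
  have h9 : (2 : ℂ) * ∑ k, s i k * q k * s j k = 2 * (if i = j then q i else 0) := by
    calc (2 : ℂ) * ∑ k, s i k * q k * s j k = ∑ k, s i k * s j k * (2 * q k) := by
          rw [Finset.mul_sum]
          exact Finset.sum_congr rfl fun k _ => by ring
      _ = _ := by
          rw [h6]
          split_ifs <;> simp
  exact mul_left_cancel₀ two_ne_zero h9

/-- the quadratic tensor -/
def cas (q : Fin n → ℂ) (M : Fin n → Matrix ι ι ℂ) : (Fin (2 * 2) → ι) → ℂ :=
  fun I => ∑ i, (q i)⁻¹ * (M i (I 0) (I 1) * M i (I 2) (I 3))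

theorem cas_change (q : Fin n → ℂ) (hq : ∀ i, q i ≠ 0) (s : Matrix (Fin n) (Fin n) ℂ)
    (hs : s * Matrix.diagonal q * sᵀ = Matrix.diagonal q) {M M' : Fin n → Matrix ι ι ℂ}
    (hM : ∀ i, M' i = ∑ j, s i j • M j) : cas q M' = cas q M := by
  funext I
  have h1 : ∀ a b i, M' i a b = (s *ᵥ fun j => M j a b) i := by
    intro a b i
    rw [hM i, Matrix.mulVec, dotProduct, Matrix.sum_apply]
    rfl
  show ∑ i, (q i)⁻¹ * (M' i (I 0) (I 1) * M' i (I 2) (I 3)) = _
  have h2 := quad_inv s q hq hs (fun j => M j (I 0) (I 1)) (fun j => M j (I 2) (I 3))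
  rw [show (∑ i, (q i)⁻¹ * (M' i (I 0) (I 1) * M' i (I 2) (I 3))) =
    ∑ i, (q i)⁻¹ * ((s *ᵥ fun j => M j (I 0) (I 1)) i * (s *ᵥ fun j => M j (I 2) (I 3)) i) from
    Finset.sum_congr rfl fun i _ => by rw [h1, h1]]
  exact h2

/-- sums over four indices -/
theorem sum_four (f : (Fin (2 * 2) → ι) → ℂ) :
    ∑ I, f I = ∑ a, ∑ b, ∑ c, ∑ d, f (![a, b, c, d] : Fin 4 → ι) := by
  let e : ι × ι × ι × ι ≃ (Fin 4 → ι) :=
    { toFun := fun p => ![p.1, p.2.1, p.2.2.1, p.2.2.2]
      invFun := fun I => (I 0, I 1, I 2, I 3)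
      left_inv := fun p => rfl
      right_inv := fun I => by
        funext i
        fin_cases i <;> rfl }
  have h1 : ∑ I : Fin 4 → ι, f I = ∑ p : ι × ι × ι × ι, f (e p) :=
    (Equiv.sum_comp e f).symm
  have h2 : ∑ I : Fin (2 * 2) → ι, f I = ∑ I : Fin 4 → ι, f I := rfl
  rw [h2, h1, Fintype.sum_prod_type]
  refine Finset.sum_congr rfl fun a _ => ?_
  rw [Fintype.sum_prod_type]
  refine Finset.sum_congr rfl fun b _ => ?_
  rw [Fintype.sum_prod_type]
  rfl

theorem prod_four (f : Fin (2 * 2) → ℂ) : ∏ l, f l = f 0 * f 1 * f 2 * f 3 :=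
  Fin.prod_univ_four f

theorem pb_cas (X : Matrix ι ι ℂ) (q : Fin n → ℂ) (M : Fin n → Matrix ι ι ℂ) :
    pb X (cas q M) = cas q (fun i => Xᵀ * M i * X) := by
  funext J
  have h0 : ∀ (N : Matrix ι ι ℂ) (u v : ι), (Xᵀ * N * X) u v = ∑ a, ∑ b, N a b * (X a u * X b v) := by
    intro N u v
    rw [Matrix.mul_apply]
    simp only [Matrix.mul_apply, Matrix.transpose_apply, Finset.sum_mul]
    rw [Finset.sum_comm]
    exact Finset.sum_congr rfl fun a _ => Finset.sum_congr rfl fun b _ => by ring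
  have h1 : pb X (cas q M) J = ∑ I : Fin (2 * 2) → ι, ∑ i, (q i)⁻¹ * ((M i (I 0) (I 1) * M i (I 2) (I 3)) *
      (X (I 0) (J 0) * X (I 1) (J 1) * X (I 2) (J 2) * X (I 3) (J 3))) := by
    rw [pb]
    refine Finset.sum_congr rfl fun I _ => ?_
    rw [prod_four]
    show (∑ i, (q i)⁻¹ * (M i (I 0) (I 1) * M i (I 2) (I 3))) * _ = _
    rw [Finset.sum_mul]
    exact Finset.sum_congr rfl fun i _ => by ring
  rw [h1, Finset.sum_comm]
  show _ = ∑ i, (q i)⁻¹ * ((Xᵀ * M i * X) (J 0) (J 1) * (Xᵀ * M i * X) (J 2) (J 3))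
  refine Finset.sum_congr rfl fun i _ => ?_
  rw [← Finset.mul_sum, sum_four, h0, h0]
  congr 1
  rw [Finset.sum_mul]
  refine Finset.sum_congr rfl fun a _ => ?_
  rw [Finset.sum_mul]
  refine Finset.sum_congr rfl fun b _ => ?_
  rw [Finset.mul_sum]
  refine Finset.sum_congr rfl fun c _ => ?_
  rw [Finset.mul_sum]
  refine Finset.sum_congr rfl fun d _ => ?_
  show M i a b * M i c d * (X a (J 0) * X b (J 1) * X c (J 2) * X d (J 3)) = _
  ring

theorem cas_smul (q : Fin n → ℂ) (c : ℂ) (M : Fin n → Matrix ι ι ℂ) :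
    cas q (fun i => c • M i) = c ^ 2 • cas q M := by
  funext I
  show ∑ i, (q i)⁻¹ * (c * M i (I 0) (I 1) * (c * M i (I 2) (I 3))) =
    c ^ 2 * ∑ i, (q i)⁻¹ * (M i (I 0) (I 1) * M i (I 2) (I 3))
  rw [Finset.mul_sum]
  exact Finset.sum_congr rfl fun i _ => by ring

/-- the space is determined by the quadratic tensor -/
theorem mem_of_cas [DecidableEq ι] {N N' : Fin n → Matrix ι ι ℂ} {q : Fin n → ℂ} (hq : ∀ i, q i ≠ 0)
    {E R R' : Matrix ι ι ℂ} (hR : R' * R = 1) (hE : E.trace ≠ 0)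
    (h2 : ∀ i j, N' i * N' j + N' j * N' i = (if i = j then 2 * q i else 0) • E)
    (h3 : cas q (fun i => R * N' i) = cas q (fun i => R * N i)) (j : Fin n) :
    N' j ∈ Submodule.span ℂ (Set.range N) := by
  have htr : ∀ i j, (N' i * N' j).trace = if i = j then q i * E.trace else 0 := by
    intro i j
    have h4 := congrArg Matrix.trace (h2 i j)
    rw [Matrix.trace_add, Matrix.trace_mul_comm (N' j), Matrix.trace_smul] at h4
    have h5 : (2 : ℂ) * (N' i * N' j).trace = 2 * (if i = j then q i * E.trace else 0) := by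
      rw [two_mul, h4]
      split_ifs
      · rw [smul_eq_mul]; ring
      · simp
    exact mul_left_cancel₀ two_ne_zero h5
  have key : ∀ (L : Fin n → Matrix ι ι ℂ) (W : Matrix ι ι ℂ),
      (∀ a b, ∑ c, ∑ d, cas q L (![a, b, c, d] : Fin 4 → ι) * W d c =
      (∑ i, ((q i)⁻¹ * (L i * W).trace) • L i) a b) := by
    intro L W a b
    rw [Matrix.sum_apply]
    have h4 : ∀ c d, cas q L (![a, b, c, d] : Fin 4 → ι) * W d c =
        ∑ i, (q i)⁻¹ * L i a b * (L i c d * W d c) := by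
      intro c d
      show (∑ i, (q i)⁻¹ * (L i a b * L i c d)) * W d c = _
      rw [Finset.sum_mul]
      exact Finset.sum_congr rfl fun i _ => by ring
    simp only [h4]
    have h5 : ∀ c, ∑ d, ∑ i, (q i)⁻¹ * L i a b * (L i c d * W d c) =
        ∑ i, (q i)⁻¹ * L i a b * (L i * W) c c := by
      intro c
      rw [Finset.sum_comm]
      refine Finset.sum_congr rfl fun i _ => ?_
      rw [← Finset.mul_sum, Matrix.mul_apply]
    simp only [h5]
    rw [Finset.sum_comm]
    refine Finset.sum_congr rfl fun i _ => ?_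
    rw [← Finset.mul_sum, Matrix.smul_apply, smul_eq_mul, Matrix.trace]
    simp only [Matrix.diag_apply]
    ring
  have h6 : (∑ i, ((q i)⁻¹ * (R * N' i * (N' j * R')).trace) • (R * N' i)) =
      ∑ i, ((q i)⁻¹ * (R * N i * (N' j * R')).trace) • (R * N i) := by
    ext a b
    rw [← key (fun i => R * N' i), ← key (fun i => R * N i), h3]
  have h7 : (∑ i, ((q i)⁻¹ * (R * N' i * (N' j * R')).trace) • (R * N' i)) = E.trace • (R * N' j) := by
    have h8 : ∀ i, (R * N' i * (N' j * R')).trace = (N' i * N' j).trace := by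
      intro i
      rw [Matrix.mul_assoc, Matrix.trace_mul_comm, ← Matrix.mul_assoc, Matrix.mul_assoc _ R', hR,
        Matrix.mul_one]
    rw [Finset.sum_eq_single j]
    · rw [h8, htr, if_pos rfl, ← mul_assoc, inv_mul_cancel₀ (hq j), one_mul]
    · intro i _ hi
      rw [h8, htr, if_neg hi, mul_zero, zero_smul]
    · intro h
      exact absurd (Finset.mem_univ _) h
  have h8 : N' j = (E.trace)⁻¹ • ∑ i, ((q i)⁻¹ * (R * N i * (N' j * R')).trace) • N i := by
    have h9 : R * N' j = (E.trace)⁻¹ • ∑ i, ((q i)⁻¹ * (R * N i * (N' j * R')).trace) • (R * N i) := by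
      rw [← h6, h7, smul_smul, inv_mul_cancel₀ hE, one_smul]
    have h10 := congrArg (fun Y => R' * Y) h9
    simp only [Matrix.mul_smul, Matrix.mul_sum, ← Matrix.mul_assoc R' R, hR, Matrix.one_mul] at h10
    exact h10
  rw [h8]
  refine Submodule.smul_mem _ _ (Submodule.sum_mem _ fun i _ => Submodule.smul_mem _ _ ?_)
  exact Submodule.subset_span ⟨i, rfl⟩

end

end Pool.Agent.K3T
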