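import Pool.Agent.ABT.Defs

/-!
# Torsors of periods of abelian varieties with a quadratic space in the endomorphisms of `H_1`

`OmegaT A t` is the set of the isomorphisms compatible with the endomorphisms of `A`, with the class of the
ample divisor and with the subspace `T` of `End (H_1 (A, ℚ))` spanned by the matrices `t i`.
-/

open scoped BigOperators
open Matrix

namespace Pool.Agent.K3T

open Pool.Agent.DRB Pool.Agent.ABT

noncomputable section

variable {g n : ℕ}

/-- The Betti realization of `T` (with complex coefficients). -/
def TB (t : Fin n → Matrix (Idx g) (Idx g) ℚ) : Submodule ℂ (Matrix (Idx g) (Idx g) ℂ) :=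
  Submodule.span ℂ (Set.range fun j => AbVar.toC (t j))

/-- The de Rham realization of `T` (with complex coefficients). -/
def TdR (A : AbVar g) (t : Fin n → Matrix (Idx g) (Idx g) ℚ) : Submodule ℂ (Matrix (Idx g) (Idx g) ℂ) :=
  Submodule.span ℂ (Set.range fun j => A.per * AbVar.toC (t j) * A.per⁻¹)

/-- The isomorphisms compatible with all endomorphisms of `A`, with the class of the ample divisor, and with
`T`: they map the Betti realization of `T` to its de Rham realization. -/
def OmegaT (A : AbVar g) (t : Fin n → Matrix (Idx g) (Idx g) ℚ) : Set (Pt g) :=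
  {f | f ∈ Omega A ∧ ∀ Y ∈ TB t, f.1 * Y * f.1⁻¹ ∈ TdR A t}

end

end Pool.Agent.K3T
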