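import Pool.Agent.K3T.Tor
import Pool.Agent.K3E.Assembly2
import Pool.Agent.K3C.Assembly2

/-!
# Torsors of periods of Kuga-Satake varieties
-/

namespace Pool.Agent.K3T

open Pool.Agent.DRB Pool.Agent.ABT Pool.Agent.K3D Pool.Agent.K3E Pool.Agent.K3C

theorem torsorE {g n m : ℕ} {A : AbVar g} (K : KSE A n m) (h3 : 3 ≤ m) (h5 : m ≠ 5) :
    IsLeast {S : Set (Pt g) | IsSubtorsor S ∧ ZX A ⊆ S} (OmegaT A K.t) :=
  torsorT A K.t K.drb fun x ν h1 h2 h4 =>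
    ((mainE2 g A n m K h3 h5).1 x ν).2 ⟨h1, h2, h4⟩

theorem torsorC {g n m : ℕ} {A : AbVar g} (K : KSC A n m) (h1 : 1 ≤ m) (h2 : Even m ∨ m = 1)
    (h3 : K.Trit) :
    IsLeast {S : Set (Pt g) | IsSubtorsor S ∧ ZX A ⊆ S} (OmegaT A K.t) :=
  torsorT A K.t K.drb fun x ν h4 h5 h6 =>
    ((mainC2 g A n m K h1 h2 h3).1 x ν).2 ⟨h4, h5, h6⟩

end Pool.Agent.K3T
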