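import Pool.Agent.K3T.Hdg
import Pool.Agent.K3T.Final

/-!
# Torsors of Hodge classes of Kuga-Satake varieties
-/

open scoped BigOperators
open Matrix

namespace Pool.Agent.K3T

open Pool.Agent.DRB Pool.Agent.ABH Pool.Agent.K3D Pool.Agent.K3E Pool.Agent.K3C
open Pool.Agent.ABT (Pt IsSubtorsor ZX)

variable {g n m : ℕ}

/-- The group of the Hodge classes normalizes `T`. -/
theorem gh_norm' (A : AbVar g) (t : Fin n → Matrix (Idx g) (Idx g) ℚ) (q : Fin n → ℚ)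
    (E : Matrix (Idx g) (Idx g) ℚ) (hE : A.IsEnd E) (hE0 : E.trace ≠ 0) (hq : ∀ i, q i ≠ 0)
    (hC : Cliff t q E) (hdrb : DrbT A t)
    (hhdg : ∀ (z : ℂˣ) (x : GL (Idx g) ℂ), A.IsMu z x → ∀ i,
      x.val * AbVar.toC (t i) * (x⁻¹).val ∈ TB t)
    (h : (Pt g)ˣ) (hh : h ∈ GH A) :
    ∀ Y ∈ TB t, (h : Pt g).1 * Y * ((h⁻¹ : (Pt g)ˣ) : Pt g).1 ∈ TB t := by
  have h1 : ∀ i, (h : Pt g).1 * AbVar.toC (t i) * ((h⁻¹ : (Pt g)ˣ) : Pt g).1 ∈ TB t := by
    intro i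
    have h2 := gh_norm A t q E hE hE0 hq hC hdrb hhdg h⁻¹ ((GH A).inv_mem hh) i
    rwa [inv_inv] at h2
  intro Y hY
  induction hY using Submodule.span_induction with
  | mem x hx =>
    obtain ⟨i, rfl⟩ := hx
    exact h1 i
  | zero => rw [Matrix.mul_zero, Matrix.zero_mul]; exact Submodule.zero_mem _
  | add a b _ _ ha hb => rw [mul_add, add_mul]; exact Submodule.add_mem _ ha hb
  | smul c a _ ha => rw [Matrix.mul_smul, Matrix.smul_mul]; exact Submodule.smul_mem _ c ha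

theorem cliff_of {t : Fin n → Matrix (Idx g) (Idx g) ℚ} {q : Fin n → ℚ}
    (sq : ∀ i, t i * t i = q i • (1 : Matrix (Idx g) (Idx g) ℚ))
    (anti : ∀ i j, i ≠ j → t i * t j = -(t j * t i)) : Cliff t q 1 := by
  intro i j
  by_cases h : i = j
  · subst h
    rw [if_pos rfl, sq, ← add_smul, two_mul]
  · rw [if_neg h, anti i j h, neg_add_cancel, zero_smul]

theorem isEnd_one (A : AbVar g) : A.IsEnd 1 := A.EndQ.one_mem

theorem trace_one_ne (hg : 0 < g) : (1 : Matrix (Idx g) (Idx g) ℚ).trace ≠ 0 := by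
  rw [Matrix.trace_one]
  simp [Idx, hg.ne']

/-- The torsor of Hodge classes, real multiplication. -/
theorem hodgeE {A : AbVar g} (K : KSE A n m) (h3 : 3 ≤ m) (h5 : m ≠ 5) :
    IsLeast {S : Set (Pt g) | IsSubtorsor S ∧ ZX A ⊆ S} (ABH.Omega A) := by
  refine ABH.least A fun h hh => ((mainE2 g A n m K h3 h5).1 _ _).2 ⟨fun α hα => GH_comm hh α hα, ?_, GH_sim hh⟩
  exact gh_norm' A K.t K.q 1 (isEnd_one A) (trace_one_ne K.pos) K.q_ne (cliff_of K.sq K.anti) K.drb K.hdg h hh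

/-- The torsor of Hodge classes, complex multiplication. -/
theorem hodgeC {A : AbVar g} (K : KSC A n m) (h1 : 1 ≤ m) (h2 : Even m ∨ m = 1) (h3 : K.Trit) :
    IsLeast {S : Set (Pt g) | IsSubtorsor S ∧ ZX A ⊆ S} (ABH.Omega A) := by
  refine ABH.least A fun h hh => ((mainC2 g A n m K h1 h2 h3).1 _ _).2 ⟨fun α hα => GH_comm hh α hα, ?_, GH_sim hh⟩
  exact gh_norm' A K.t K.q 1 (isEnd_one A) (trace_one_ne K.pos) K.q_ne (cliff_of K.sq K.anti) K.drb K.hdg h hh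

end Pool.Agent.K3T
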