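import Pool.Agent.K3T.G4
import Pool.Agent.K3M.StmtsF

/-!
# Torsors of Hodge classes of products of Kuga-Satake varieties, final form
-/

open scoped BigOperators
open Matrix

namespace Pool.Agent.K3T

open Pool.Agent.DRB Pool.Agent.ABH Pool.Agent.K3D Pool.Agent.K3E Pool.Agent.K3C Pool.Agent.K3P Pool.Agent.K3M
open Pool.Agent.ABT (Pt IsSubtorsor ZX)

/-- The torsor of Hodge classes of a product of Kuga-Satake varieties. -/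
theorem hodgeM3 (hM : MainM3) {g : ℕ} {A : AbVar g} {r s : ℕ} {h : Fin (r + s) → ℕ} {B : ∀ i, AbVar (h i)}
    (D : Decomp A B) (hH : ∀ i j, i ≠ j → ∀ α, IsHom (B i) (B j) α → α = 0)
    {n₁ m₁ : Fin r → ℕ} (K₁ : ∀ i, KSE (B (Fin.castAdd s i)) (n₁ i) (m₁ i))
    {n₂ m₂ : Fin s → ℕ} (K₂ : ∀ j, KSC (B (Fin.natAdd r j)) (n₂ j) (m₂ j))
    (c1 : ∀ i, 3 ≤ m₁ i ∧ m₁ i ≠ 5) (c2 : ∀ j, 1 ≤ m₂ j ∧ (Even (m₂ j) ∨ m₂ j = 1))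
    (hT : ∀ j, (K₂ j).Trit) (hP : PairConj K₂) :
    IsLeast {S : Set (Pt g) | IsSubtorsor S ∧ ZX A ⊆ S} (ABH.Omega A) := by
  refine ABH.least A fun y hy =>
    ((hM g A r s h B D hH n₁ m₁ K₁ n₂ m₂ K₂ c1 c2 hT hP).1 _ _).2 ⟨fun α hα => GH_comm hy α hα, ?_, ?_, GH_sim hy⟩
  · intro i
    exact G4.blk_norm D (Fin.castAdd s i) (K₁ i).pos (K₁ i).t (K₁ i).q (K₁ i).sq (K₁ i).anti (K₁ i).q_ne
        (K₁ i).drb (K₁ i).hdg y hy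
  · intro j
    exact G4.blk_norm D (Fin.natAdd r j) (K₂ j).pos (K₂ j).t (K₂ j).q (K₂ j).sq (K₂ j).anti (K₂ j).q_ne
        (K₂ j).drb (K₂ j).hdg y hy

end Pool.Agent.K3T
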