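import Pool.Agent.K3E.E10c

/-!
# Elements which normalize `T` are products of exponentials: real multiplication
-/

open scoped BigOperators
open Matrix

namespace Pool.Agent.K3T

open Pool.Agent.DRB Pool.Agent.K3D Pool.Agent.K3E

namespace G1

open E10C

variable {g n m : ℕ} {A : AbVar g}

/-- scalar multiples of products of exponentials -/
def GenZ (K : KSE A n m) (y : Matrix (Idx g) (Idx g) ℂ) : Prop :=
  ∃ c : ℂ, c ≠ 0 ∧ ∃ L : List (Matrix (Fin n) (Fin n) ℂ), (∀ a ∈ L, a ∈ K.S) ∧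
    y = c • (L.map fun a => NormedSpace.exp (K.Z a)).prod

theorem GenZ.mul {K : KSE A n m} {x y : Matrix (Idx g) (Idx g) ℂ} (hx : GenZ K x) (hy : GenZ K y) :
    GenZ K (x * y) := by
  obtain ⟨c, hc, L, h1, rfl⟩ := hx
  obtain ⟨d, hd, M, h2, rfl⟩ := hy
  refine ⟨c * d, mul_ne_zero hc hd, L ++ M, ?_, ?_⟩
  · intro a ha
    rcases List.mem_append.1 ha with h | h
    · exact h1 a h
    · exact h2 a h
  · rw [List.map_append, List.prod_append, Matrix.smul_mul, Matrix.mul_smul, smul_smul]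

theorem GenZ.one {K : KSE A n m} : GenZ K 1 :=
  ⟨1, one_ne_zero, [], by simp, by simp⟩

/-- Good elements whose inverse is a product of exponentials. -/
structure GoodX (K : KSE A n m) (y : GL (Idx g) ℂ) : Prop extends Good K y where
  ex : GenZ K (y⁻¹).val

theorem GoodX.mul {K : KSE A n m} {x y : GL (Idx g) ℂ} (hx : GoodX K x) (hy : GoodX K y) :
    GoodX K (x * y) := by
  refine ⟨hx.toGood.mul hy.toGood, ?_⟩
  rw [_root_.mul_inv_rev, Units.val_mul]
  exact hy.ex.mul hx.ex

theorem GoodX.one {K : KSE A n m} : GoodX K 1 := by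
  refine ⟨⟨fun α _ => ?_, fun v => ⟨v, ?_⟩⟩, ?_⟩
  · rw [Units.val_one, Matrix.one_mul, Matrix.mul_one]
  · rw [Units.val_one, Matrix.one_mul, Matrix.mul_one]
  · rw [inv_one, Units.val_one]
    exact GenZ.one

/-- the product of two vectors of an eigenspace -/
theorem pair_exp (K : KSE A n m) (z : ℂ) (v w : Fin n → ℂ) (hv : v ∈ K.Tl z) (hw : w ∈ K.Tl z)
    (hvv : K.bil v v ≠ 0) (hww : K.bil w w ≠ 0) :
    ∃ s : ℂ, ∃ a ∈ K.S, K.cl v * K.cl w = Complex.exp (s / 2) • NormedSpace.exp (K.Z a) ∧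
      Complex.exp s = K.bil v v * K.bil w w := by
  have hr := E5X.rel K
  have h1 := E10B.Z_wm K v w
  set Y : Matrix (Idx g) (Idx g) ℂ := K.cl v * K.cl w - K.bil v w • 1 with hY
  have hYY : Y * Y = (K.bil v w ^ 2 - K.bil v v * K.bil w w) • 1 := by
    have h5 : K.cl w * K.cl v = (2 * K.bil v w) • (1 : Matrix (Idx g) (Idx g) ℂ) -
        K.cl v * K.cl w := by
      rw [← hr v w]; abel
    have h6 : K.cl v * K.cl w * (K.cl v * K.cl w) =
        (2 * K.bil v w) • (K.cl v * K.cl w) - (K.bil v v * K.bil w w) • 1 := by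
      have : K.cl v * K.cl w * (K.cl v * K.cl w) = K.cl v * (K.cl w * K.cl v) * K.cl w := by
        simp only [mul_assoc]
      rw [this, h5, mul_sub, sub_mul, mul_smul_comm, mul_one, smul_mul_assoc, ← mul_assoc,
        E5X.sq hr v, smul_mul_assoc, one_mul, smul_mul_assoc, E5X.sq hr w, smul_smul]
    rw [hY, mul_sub, sub_mul, sub_mul, h6]
    simp only [smul_mul_assoc, mul_smul_comm, one_mul, mul_one, smul_smul]
    module
  have hne : K.bil v w ^ 2 - (K.bil v w ^ 2 - K.bil v v * K.bil w w) ≠ 0 := by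
    rw [sub_sub_cancel]
    exact mul_ne_zero hvv hww
  obtain ⟨s, θ, he, hes⟩ := E10B.exp_quad Y _ (K.bil v w) hYY hne
  rw [sub_sub_cancel] at hes
  have hZ : K.Z ((2 * θ) • E5L.wm K v w) = θ • Y := by
    rw [E5X.Z_smul, h1, smul_smul, show 2 * θ * (1 / 2) = θ by ring]
  refine ⟨s, (2 * θ) • E5L.wm K v w, K.S.smul_mem _ (E5L.wm_mem K hv hw), ?_, hes⟩
  have h5 : K.bil v w • (1 : Matrix (Idx g) (Idx g) ℂ) + Y = K.cl v * K.cl w := by
    rw [hY]; abel
  rw [hZ, ← h5, ← he, Matrix.exp_add_of_commute _ _ ((Commute.one_left _).smul_left _),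
    E10B.exp_scalar, smul_mul_assoc, one_mul]

/-- Pairs are good. -/
theorem Yp_goodX (K : KSE A n m) (hK5a : Stmt_E5a) (z : ℂ) (v w : Fin n → ℂ)
    (hvz : v ∈ K.Tl z) (hwz : w ∈ K.Tl z) (hv : K.bil v v ≠ 0) (hw : K.bil w w ≠ 0) :
    GoodX K (Yp K v w hv hw) := by
  have hr := E5X.rel K
  have hvw : ∀ v w : Fin n → ℂ, K.cl v * K.cl w =
      K.bil v w • 1 + (2 : ℂ) • K.Z (E5L.wm K v w) := by
    intro v w
    rw [E10B.Z_wm, smul_smul, show (2 : ℂ) * (1 / 2) = 1 by norm_num, one_smul]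
    abel
  refine ⟨⟨?_, ?_⟩, ?_⟩
  · intro α hα
    have h6 := (hK5a g A n m K).2.2.2.2.2 α hα _ (E5L.wm_mem K hvz hwz)
    change ((K.bil v v * K.bil w w)⁻¹ • (K.cl v * K.cl w)) * _ =
      _ * ((K.bil v v * K.bil w w)⁻¹ • (K.cl v * K.cl w))
    rw [hvw, Matrix.smul_mul, Matrix.mul_smul, Matrix.add_mul, Matrix.mul_add, Matrix.smul_mul,
      Matrix.mul_smul, Matrix.smul_mul, Matrix.mul_smul, h6, Matrix.one_mul, Matrix.mul_one]
  · intro u
    obtain ⟨u1, h1⟩ := refl_rel K w u hw
    obtain ⟨u2, h2⟩ := refl_rel K v u1 hv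
    refine ⟨u2, ?_⟩
    change ((K.bil v v * K.bil w w)⁻¹ • (K.cl v * K.cl w)) * _ =
      _ * ((K.bil v v * K.bil w w)⁻¹ • (K.cl v * K.cl w))
    rw [Matrix.smul_mul, Matrix.mul_smul, Matrix.mul_assoc, h1, ← Matrix.mul_assoc, h2,
      Matrix.mul_assoc]
  · change GenZ K (K.cl w * K.cl v)
    obtain ⟨s, a, ha, h1, -⟩ := pair_exp K z w v hwz hvz hw hv
    exact ⟨Complex.exp (s / 2), Complex.exp_ne_zero _, [a], by simpa using ha, by simpa using h1⟩

/-- One step: moving the vector `f` to `e`. -/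
theorem step (K : KSE A n m) (hK5a : Stmt_E5a) (hm : 3 ≤ m) (z : ℂ)
    (e f c : Fin n → ℂ) (he : e ∈ K.Tl z) (hf : f ∈ K.Tl z) (hc : c ∈ K.Tl z)
    (he0 : K.bil e e ≠ 0) (hc0 : K.bil c c ≠ 0) (hce : K.bil c e = 0) (hfe : K.bil f f = K.bil e e) :
    ∃ y : GL (Idx g) ℂ, GoodX K y ∧ y.val * K.cl f = K.cl e * y.val ∧
      ∀ u, K.bil e u = 0 → K.bil f u = 0 → K.bil c u = 0 → Fx K y u := by
  have hr := E5X.rel K
  by_cases h : K.bil (f + (-1 : ℂ) • e) (f + (-1 : ℂ) • e) = 0
  · -- use `f + e`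
    have h1 : K.bil (f + e) (f + e) ≠ 0 := by
      have h2 : K.bil (f + e) (f + e) + K.bil (f + (-1 : ℂ) • e) (f + (-1 : ℂ) • e) =
          4 * K.bil e e := by
        simp only [E5X.bil_add_left, E5X.bil_add_right, E5X.bil_smul_left, E5X.bil_smul_right]
        rw [hfe]
        ring
      rw [h, add_zero] at h2
      rw [h2]
      exact mul_ne_zero (by norm_num) he0
    refine ⟨Yp K e (f + e) he0 h1, Yp_goodX K hK5a z e (f + e) he
      (Submodule.add_mem _ hf he) he0 h1, ?_, ?_⟩
    · apply smul_comm_iff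
      rw [E5X.cl_add, Matrix.mul_add, Matrix.add_mul, Matrix.mul_assoc, E5X.sq hr, hfe, ← E5X.sq hr e,
        Matrix.mul_add, Matrix.mul_assoc]
      rw [add_comm]
    · intro u h3 h4 _
      exact Yp_Fx K e (f + e) u he0 h1 h3 (by rw [E5X.bil_add_left, h3, h4, add_zero])
  · refine ⟨Yp K c (f + (-1 : ℂ) • e) hc0 h, Yp_goodX K hK5a z c
      (f + (-1 : ℂ) • e) hc (Submodule.add_mem _ hf (Submodule.smul_mem _ _ he)) hc0 h, ?_, ?_⟩
    · apply smul_comm_iff
      have h1 : K.cl (f + (-1 : ℂ) • e) * K.cl f = -(K.cl e * K.cl (f + (-1 : ℂ) • e)) := by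
        rw [E5X.cl_add, E5X.cl_smul, Matrix.add_mul, Matrix.mul_add, E5X.sq hr, Matrix.smul_mul,
          Matrix.mul_smul, E5X.sq hr, hfe]
        module
      rw [Matrix.mul_assoc, h1, Matrix.mul_neg, ← Matrix.mul_assoc, E5X.anti hr c e hce,
        Matrix.neg_mul, neg_neg, Matrix.mul_assoc]
    · intro u h3 h4 h5
      exact Yp_Fx K c (f + (-1 : ℂ) • e) u hc0 h h5
        (by rw [E5X.bil_add_left, E5X.bil_smul_left, h3, h4, mul_zero, add_zero])

/-- One eigenspace. -/
theorem eigen (K : KSE A n m) (hq : DRB.Stmt_DescQ) (h5l : Stmt_E5l) (hK5a : Stmt_E5a)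
    (hm : 3 ≤ m) (z : ℂ)
    (x : GL (Idx g) ℂ) (hx : Good K x) :
    ∃ y : GL (Idx g) ℂ, GoodX K y ∧ (∀ v ∈ K.Tl z, Fx K (y * x) v) ∧
      ∀ z', z ≠ z' → ∀ v ∈ K.Tl z', Fx K y v := by
  classical
  have hr := E5X.rel K
  obtain ⟨-, -, hzz, hnd, -, hS, -⟩ := h5l g A n m K hm
  obtain ⟨k, b, hbW, hinj, horth, hne, hspan, hdec⟩ := E5X.orth_basis K (K.Tl z) (hnd z)
  obtain ⟨ε, ρ, hV⟩ := vol_of_basis K (K.Tl z) b hbW hinj horth hne hspan hdec
  have hfin : ∀ x' : GL (Idx g) ℂ, (∀ j, Fx K x' (b j)) → ∀ v ∈ K.Tl z, Fx K x' v := by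
    intro x' h v hv
    have := hspan v hv
    unfold Fx
    induction this using Submodule.span_induction with
    | mem w hw =>
      obtain ⟨j, rfl⟩ := hw
      exact h j
    | zero => rw [E5X.cl_zero, Matrix.zero_mul, Matrix.mul_zero]
    | add w1 w2 hw1' hw2' hw1 hw2 =>
      rw [E5X.cl_add, Matrix.mul_add, Matrix.add_mul, hw1, hw2]
      all_goals
        first
          | exact (Submodule.span_le.2 (by rintro _ ⟨j, rfl⟩; exact hbW j)) hw1'
          | exact (Submodule.span_le.2 (by rintro _ ⟨j, rfl⟩; exact hbW j)) hw2'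
    | smul c w hw' hw =>
      rw [E5X.cl_smul, Matrix.mul_smul, Matrix.smul_mul, hw]
      exact (Submodule.span_le.2 (by rintro _ ⟨j, rfl⟩; exact hbW j)) hw'
  have hind : ∀ i : ℕ, i + 1 ≤ k → ∃ y : GL (Idx g) ℂ, GoodX K y ∧
      (∀ j : Fin k, j.val < i → Fx K (y * x) (b j)) ∧ ∀ z', z ≠ z' → ∀ v ∈ K.Tl z', Fx K y v := by
    intro i
    induction i with
    | zero =>
      intro _
      exact ⟨1, GoodX.one, fun j hj => absurd hj (Nat.not_lt_zero _), fun _ _ v _ => Fx.one K⟩
    | succ i ih =>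
      intro hi
      obtain ⟨y, hy, hyb, hyz⟩ := ih (by omega)
      have hyx : Good K (y * x) := hy.toGood.mul hx
      obtain ⟨f, hf, hfe⟩ := img K hq h5l hm z b hV (y * x) hyx (b ⟨i, by omega⟩) (hbW _)
      have hff : K.bil f f = K.bil (b ⟨i, by omega⟩) (b ⟨i, by omega⟩) :=
        E5X.bil_conj K.pos hr (y * x) hfe hfe
      have hne' : (⟨i + 1, by omega⟩ : Fin k) ≠ ⟨i, by omega⟩ := by
        intro h
        have := congrArg Fin.val h
        simp at this
      obtain ⟨y1, hy1, hy1f, hy1u⟩ := step K hK5a hm z (b ⟨i, by omega⟩) f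
        (b ⟨i + 1, by omega⟩) (hbW _) hf (hbW _) (hne _) (hne _) (horth _ _ hne') hff
      refine ⟨y1 * y, hy1.mul hy, ?_, ?_⟩
      · intro j hj
        rw [mul_assoc]
        by_cases hji : j.val = i
        · have hji' : j = ⟨i, by omega⟩ := Fin.ext hji
          rw [hji']
          unfold Fx
          rw [conj_iff] at hfe
          rw [Units.val_mul y1, Matrix.mul_assoc, hfe, ← Matrix.mul_assoc, hy1f, Matrix.mul_assoc]
        · have hj' : j.val < i := by omega
          have hfj := hyb j hj'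
          refine Fx.mul (hy1u _ ?_ ?_ ?_) hfj
          · exact horth _ _ (fun h => hji (by rw [← h]))
          · have := E5X.bil_conj K.pos hr (y * x) hfe ((Fx_iff _ _).2 hfj)
            rw [this]
            exact horth _ _ (fun h => hji (by rw [← h]))
          · refine horth _ _ (fun h => ?_)
            have := congrArg Fin.val h
            simp at this
            omega
      · intro z' hz' v hv
        refine Fx.mul (hy1u _ ?_ ?_ ?_) (hyz z' hz' v hv)
        · exact hzz z z' hz' _ (hbW _) _ hv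
        · exact hzz z z' hz' _ hf _ hv
        · exact hzz z z' hz' _ (hbW _) _ hv
  rcases k with _ | N
  · exact ⟨1, GoodX.one, fun v hv => hfin _ (fun j => j.elim0) v hv, fun _ _ v _ => Fx.one K⟩
  · obtain ⟨y, hy, hyb, hyz⟩ := hind N le_rfl
    refine ⟨y, hy, ?_, hyz⟩
    apply hfin
    have hyx : Good K (y * x) := hy.toGood.mul hx
    obtain ⟨f, hf, hfe⟩ := img K hq h5l hm z b hV (y * x) hyx (b (Fin.last N)) (hbW _)
    have hff : K.bil f f = K.bil (b (Fin.last N)) (b (Fin.last N)) :=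
      E5X.bil_conj K.pos hr (y * x) hfe hfe
    have hfb : ∀ j : Fin (N + 1), j ≠ Fin.last N → K.bil f (b j) = 0 := by
      intro j hj
      have hj' : j.val < N := by
        have := j.isLt
        have h2 : j.val ≠ N := fun h => hj (Fin.ext h)
        omega
      have := E5X.bil_conj K.pos hr (y * x) hfe ((Fx_iff _ _).2 (hyb j hj'))
      rw [this]
      exact horth _ _ (fun h => hj h.symm)
    -- `f` is a multiple of the last vector
    set e := b (Fin.last N) with he
    set c := K.bil f e / K.bil e e with hc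
    have hfc : f = c • e := by
      have h1 : f + (-c) • e = 0 := by
        apply hnd z _ (Submodule.add_mem _ hf (Submodule.smul_mem _ _ (hbW _)))
        intro w hw
        have := hspan w hw
        clear hw
        induction this using Submodule.span_induction with
        | mem w hw =>
          obtain ⟨j, rfl⟩ := hw
          by_cases hj : j = Fin.last N
          · subst hj
            rw [E5X.bil_add_left, E5X.bil_smul_left, ← he, hc, neg_mul, div_mul_cancel₀ _ (hne _)]
            ring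
          · rw [E5X.bil_add_left, E5X.bil_smul_left, hfb j hj, horth _ _ (fun h => hj h.symm)]
            ring
        | zero => simpa using E5X.bil_smul_right K 0 (f + (-c) • e) 0
        | add w1 w2 _ _ h1 h2 => rw [E5X.bil_add_right, h1, h2, add_zero]
        | smul r w _ h1 => rw [E5X.bil_smul_right, h1, mul_zero]
      have h2 : f = f + (-c) • e + c • e := by module
      rw [h2, h1, zero_add]
    have hcc : c * c = 1 := by
      have h1 := hff
      rw [hfc, E5X.bil_smul_left, E5X.bil_smul_right, ← mul_assoc] at h1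
      have h2 : (c * c - 1) * K.bil e e = 0 := by rw [sub_mul, one_mul, h1, sub_self]
      exact sub_eq_zero.1 ((mul_eq_zero.1 h2).resolve_right (hne _))
    rw [conj_iff, hfc, E5X.cl_smul, Matrix.smul_mul] at hfe
    -- the product of all vectors
    have hR : ∀ l : List (Fin n → ℂ), (∀ v ∈ l, Fx K (y * x) v) →
        (y * x).val * E5X.pr K l = E5X.pr K l * (y * x).val := by
      intro l
      induction l with
      | nil => intro _; rw [E5X.pr_nil, Matrix.one_mul, Matrix.mul_one]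
      | cons a l ih =>
        intro h
        have h1 : (y * x).val * K.cl a = K.cl a * (y * x).val := h a List.mem_cons_self
        rw [E5X.pr_cons, ← Matrix.mul_assoc, h1, Matrix.mul_assoc,
          ih (fun v hv => h v (List.mem_cons_of_mem _ hv)), Matrix.mul_assoc]
    have hof : List.ofFn b = List.ofFn (fun i : Fin N => b i.castSucc) ++ [e] := by
      rw [List.ofFn_succ', List.concat_eq_append]
    have h1 : (y * x).val * E5X.pr K (List.ofFn b) = E5X.pr K (List.ofFn b) * (y * x).val :=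
      E5X.comm_of K hq _ (y * x).val
        (fun b hb => hV.Z_comm b (E5X.S_skew K b hb) fun w hw => hS b hb z w hw) hyx.com
    have h2 : (y * x).val * E5X.pr K (List.ofFn b) = c • (E5X.pr K (List.ofFn b) * (y * x).val) := by
      rw [hof, E5X.pr_append, E5X.pr_cons, E5X.pr_nil, Matrix.mul_one, ← Matrix.mul_assoc, hR,
        Matrix.mul_assoc, hfe, Matrix.mul_smul, Matrix.mul_assoc]
      intro v hv
      obtain ⟨i, rfl⟩ := (List.mem_ofFn' _ _).1 hv
      exact hyb _ i.isLt
    have hunit : IsUnit (E5X.pr K (List.ofFn b) * (y * x).val) := by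
      refine IsUnit.mul ?_ (Units.isUnit _)
      refine E5X.pr_isUnit hr _ fun v hv => ?_
      obtain ⟨i, rfl⟩ := (List.mem_ofFn' _ _).1 hv
      exact hne i
    have hc1 : c = 1 := by
      rw [h1] at h2
      have h3 : (1 - c) • (E5X.pr K (List.ofFn b) * (y * x).val) = 0 := by
        rw [sub_smul, one_smul, ← h2, sub_self]
      rcases smul_eq_zero.1 h3 with h4 | h4
      · exact (sub_eq_zero.1 h4).symm
      · rw [h4] at hunit
        obtain ⟨u, hu⟩ := hunit
        have h5 := u.mul_inv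
        rw [hu, Matrix.zero_mul] at h5
        exact absurd h5.symm (E5X.one_ne K.pos)
    intro j
    by_cases hj : j = Fin.last N
    · subst hj
      rw [hc1, one_smul] at hfe
      exact hfe
    · refine hyb j ?_
      have := j.isLt
      have h2 : j.val ≠ N := fun h => hj (Fin.ext h)
      omega

/-- All eigenspaces. -/
theorem all_eigen (K : KSE A n m) (hq : DRB.Stmt_DescQ) (h5l : Stmt_E5l) (hK5a : Stmt_E5a) (hm : 3 ≤ m)
    (x : GL (Idx g) ℂ) (hx : Good K x) :
    ∃ y : GL (Idx g) ℂ, GoodX K y ∧ ∀ v, Fx K (y * x) v := by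
  classical
  obtain ⟨-, htop, -⟩ := h5l g A n m K hm
  have key : ∀ s : Finset ℂ, ∃ y : GL (Idx g) ℂ, GoodX K y ∧ ∀ z ∈ s, ∀ v ∈ K.Tl z, Fx K (y * x) v := by
    intro s
    induction s using Finset.induction_on with
    | empty => exact ⟨1, GoodX.one, fun z hz => absurd hz (Finset.notMem_empty z)⟩
    | insert z s hz ih =>
      obtain ⟨y, hy, hyv⟩ := ih
      obtain ⟨y1, hy1, h1, h2⟩ := eigen K hq h5l hK5a hm z (y * x) (hy.toGood.mul hx)
      refine ⟨y1 * y, hy1.mul hy, fun z' hz' v hv => ?_⟩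
      rw [mul_assoc]
      rcases Finset.mem_insert.1 hz' with rfl | hz''
      · exact h1 v hv
      · exact Fx.mul (h2 z' (fun h => hz (h ▸ hz'')) v hv) (hyv z' hz'' v hv)
  obtain ⟨y, hy, hyv⟩ := key ((K.P.map (algebraMap ℚ ℂ)).roots.toFinset)
  refine ⟨y, hy, fun v => ?_⟩
  let D : Submodule ℂ (Fin n → ℂ) :=
    { carrier := {v | Fx K (y * x) v}
      add_mem' := by
        intro a b ha hb
        have ha' : (y * x).val * K.cl a = K.cl a * (y * x).val := ha
        have hb' : (y * x).val * K.cl b = K.cl b * (y * x).val := hb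
        change (y * x).val * K.cl (a + b) = K.cl (a + b) * (y * x).val
        rw [E5X.cl_add, Matrix.mul_add, Matrix.add_mul, ha', hb']
      zero_mem' := by
        change (y * x).val * K.cl 0 = K.cl 0 * (y * x).val
        rw [E5X.cl_zero, Matrix.mul_zero, Matrix.zero_mul]
      smul_mem' := by
        intro c a ha
        have ha' : (y * x).val * K.cl a = K.cl a * (y * x).val := ha
        change (y * x).val * K.cl (c • a) = K.cl (c • a) * (y * x).val
        rw [E5X.cl_smul, Matrix.mul_smul, Matrix.smul_mul, ha'] }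
  have hle : (⨆ z ∈ {z : ℂ | Polynomial.aeval z K.P = 0}, K.Tl z) ≤ D := by
    refine iSup₂_le fun z hz w hw => ?_
    refine hyv z ?_ w hw
    rw [Multiset.mem_toFinset, Polynomial.mem_roots']
    refine ⟨?_, ?_⟩
    · rw [Ne, Polynomial.map_eq_zero]
      exact K.irr.ne_zero
    · have hz' : Polynomial.aeval z K.P = 0 := hz
      rw [Polynomial.IsRoot.def, Polynomial.eval_map]
      exact hz'
  exact hle (htop v)

/-- An element which commutes with the endomorphisms and normalizes `T` is a scalar multiple of a product of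
exponentials. -/
theorem genE (K : KSE A n m) (hq : DRB.Stmt_DescQ) (h5l : Stmt_E5l) (hK5a : Stmt_E5a) (hm : 3 ≤ m)
    (x : GL (Idx g) ℂ) (hgood : Good K x) : GenZ K x.val := by
  obtain ⟨y, hy, hyv⟩ := all_eigen K hq h5l hK5a hm x hgood
  obtain ⟨c, hc⟩ := (hK5a g A n m K).2.2.2.1 (y * x).val (hy.toGood.mul hgood).com hyv
  have hc0 : c ≠ 0 := by
    rintro rfl
    have h1 := E5X.mul_inv_self (y * x)
    rw [hc, zero_smul, Matrix.zero_mul] at h1
    exact E5X.one_ne K.pos h1.symm
  have hxy : x.val = c • (y⁻¹).val := by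
    have h1 : x.val = (y⁻¹).val * (y * x).val := by
      rw [Units.val_mul, ← Matrix.mul_assoc, E5X.inv_mul_self, Matrix.one_mul]
    rw [h1, hc, Matrix.mul_smul, Matrix.mul_one]
  obtain ⟨d, hd, L, hL, h1⟩ := hy.ex
  exact ⟨c * d, mul_ne_zero hc0 hd, L, hL, by rw [hxy, h1, smul_smul]⟩

/-- `-1` is an exponential. -/
theorem negE (K : KSE A n m) (h5l : Stmt_E5l) (hm : 3 ≤ m) : ∃ a ∈ K.S, NormedSpace.exp (K.Z a) = -1 := by
  classical
  have hr := E5X.rel K
  obtain ⟨hfr, -, hzz, hnd, -⟩ := h5l g A n m K hm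
  obtain ⟨z, hz⟩ : ∃ z : ℂ, Polynomial.aeval z K.P = 0 := ⟨(K.lam : ℂ), by
    have h1 := K.lam_root
    have h2 : Polynomial.aeval ((algebraMap ℝ ℂ) K.lam) K.P = algebraMap ℝ ℂ (Polynomial.aeval K.lam K.P) :=
      Polynomial.aeval_algebraMap_apply ℂ K.lam K.P
    rw [h1, map_zero] at h2
    exact h2⟩
  obtain ⟨k, b, hbW, hinj, horth, hne, hspan, -⟩ := E5X.orth_basis K (K.Tl z) (hnd z)
  have hk : 2 ≤ k := by
    by_contra hk
    push Not at hk
    have h1 : K.Tl z ≤ Submodule.span ℂ (Set.range b) := fun w hw => hspan w hw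
    have h2 := Submodule.finrank_mono h1
    have h3 : Module.finrank ℂ (Submodule.span ℂ (Set.range b)) ≤ k := by
      have := finrank_range_le_card (R := ℂ) b
      rw [Fintype.card_fin] at this
      exact this
    rw [hfr z hz] at h2
    omega
  set v := b ⟨0, by omega⟩ with hv
  set w := b ⟨1, by omega⟩ with hw
  have hvw : K.bil v w = 0 := horth _ _ (by simp)
  obtain ⟨s, a, ha, h1, h2⟩ := pair_exp K z v w (hbW _) (hbW _) (hne _) (hne _)
  refine ⟨(2 : ℂ) • a, K.S.smul_mem _ ha, ?_⟩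
  have h3 : NormedSpace.exp (K.Z ((2 : ℂ) • a)) = NormedSpace.exp (K.Z a) * NormedSpace.exp (K.Z a) := by
    rw [E5X.Z_smul, two_smul, Matrix.exp_add_of_commute _ _ (Commute.refl _)]
  have h4 : (K.cl v * K.cl w) * (K.cl v * K.cl w) = (-(K.bil v v * K.bil w w)) • 1 := by
    have h5 : K.cl w * K.cl v = - (K.cl v * K.cl w) := by
      have h6 := hr v w
      rw [hvw, mul_zero, zero_smul] at h6
      exact (neg_eq_of_add_eq_zero_right h6).symm
    calc (K.cl v * K.cl w) * (K.cl v * K.cl w) = K.cl v * (K.cl w * K.cl v) * K.cl w := by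
          simp only [Matrix.mul_assoc]
      _ = -((K.cl v * K.cl v) * (K.cl w * K.cl w)) := by
          rw [h5]
          simp only [Matrix.mul_neg, Matrix.neg_mul, Matrix.mul_assoc]
      _ = _ := by
          rw [E5X.sq hr, E5X.sq hr, Matrix.smul_mul, Matrix.mul_smul, Matrix.one_mul, smul_smul, neg_smul]
  rw [h1, Matrix.smul_mul, Matrix.mul_smul, smul_smul, ← Complex.exp_add, add_halves, h2, ← h3] at h4
  have h5 : K.bil v v * K.bil w w ≠ 0 := mul_ne_zero (hne _) (hne _)
  have h6 := congrArg (fun M => (K.bil v v * K.bil w w)⁻¹ • M) h4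
  simp only [smul_smul, inv_mul_cancel₀ h5, one_smul, neg_smul] at h6
  rw [h6, smul_neg, smul_smul, inv_mul_cancel₀ h5, one_smul]

end G1

end Pool.Agent.K3T
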