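import Pool.Agent.K3C.C10c
import Pool.Agent.K3C.C10x

/-!
# Elements which normalize `T` are products of exponentials: complex multiplication
-/

open scoped BigOperators
open Matrix

namespace Pool.Agent.K3T

open Pool.Agent.DRB Pool.Agent.K3D Pool.Agent.K3E Pool.Agent.K3C

namespace G2

variable {g n m : ℕ} {A : AbVar g}

/-- scalar multiples of products of exponentials -/
def GenZ (K : KSC A n m) (y : Matrix (Idx g) (Idx g) ℂ) : Prop :=
  ∃ c : ℂ, c ≠ 0 ∧ ∃ L : List (Matrix (Fin n) (Fin n) ℂ), (∀ a ∈ L, a ∈ K.S) ∧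
    y = c • (L.map fun a => NormedSpace.exp (K.Z a)).prod

theorem expU_prod (K : KSC A n m) (L : List (Matrix (Fin n) (Fin n) ℂ)) :
    ((L.map fun a => C10C.expU (K.Z a)).prod : GL (Idx g) ℂ).val =
      (L.map fun a => NormedSpace.exp (K.Z a)).prod := by
  induction L with
  | nil => simp
  | cons a L ih =>
    rw [List.map_cons, List.prod_cons, List.map_cons, List.prod_cons, Units.val_mul, ih]
    rfl

theorem expU_act (K : KSC A n m) (hC5a : Stmt_C5a) (L : List (Matrix (Fin n) (Fin n) ℂ))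
    (hL : ∀ a ∈ L, a ∈ K.S) (v : Fin n → ℂ) :
    ((L.map fun a => C10C.expU (K.Z a)).prod : GL (Idx g) ℂ).val * K.cl v =
      K.cl ((L.map fun a => NormedSpace.exp a).prod *ᵥ v) *
        ((L.map fun a => C10C.expU (K.Z a)).prod : GL (Idx g) ℂ).val := by
  induction L with
  | nil => simp
  | cons a L ih =>
    have h3 := ih fun b hb => hL b (List.mem_cons_of_mem _ hb)
    have ha := hL a List.mem_cons_self
    have hact := (hC5a g A n m K).2.2.1 a (fun v w => by
      rw [C5L.bil_S K ha v w]; ring)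
    have h4 := K8X.exp_intertwine (C8Y.clL K) (K.Z a) a (fun w => hact w)
      ((L.map fun a => NormedSpace.exp a).prod *ᵥ v)
    rw [C8Y.clL_apply, C8Y.clL_apply, Matrix.mulVec_mulVec] at h4
    have h5 : (C10C.expU (K.Z a)).val = NormedSpace.exp (K.Z a) := rfl
    rw [List.map_cons, List.prod_cons, Units.val_mul, h5, mul_assoc, h3, ← mul_assoc, h4,
      List.map_cons, List.prod_cons, mul_assoc]

theorem expU_comm (K : KSC A n m) (hC5a : Stmt_C5a) (L : List (Matrix (Fin n) (Fin n) ℂ))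
    (hL : ∀ a ∈ L, a ∈ K.S) (α : Matrix (Idx g) (Idx g) ℚ) (hα : A.IsEnd α) :
    ((L.map fun a => C10C.expU (K.Z a)).prod : GL (Idx g) ℂ).val * AbVar.toC α =
      AbVar.toC α * ((L.map fun a => C10C.expU (K.Z a)).prod : GL (Idx g) ℂ).val := by
  induction L with
  | nil => simp
  | cons a L ih =>
    have h3 := ih fun b hb => hL b (List.mem_cons_of_mem _ hb)
    have h4 := CX10.exp_J _ _ _ ((hC5a g A n m K).2.2.2.2.2 α hα a (hL a List.mem_cons_self))
    have h5 : (C10C.expU (K.Z a)).val = NormedSpace.exp (K.Z a) := rfl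
    rw [List.map_cons, List.prod_cons, Units.val_mul, h5, mul_assoc, h3, ← mul_assoc, h4, mul_assoc]

/-- An element which commutes with the endomorphisms and normalizes `T` is a scalar multiple of a product of
exponentials. -/
theorem genC (K : KSC A n m) (hC5a : Stmt_C5a) (hC5v : Stmt_C5v) (hm : 1 ≤ m)
    (x : GL (Idx g) ℂ) (hcom : ∀ α, A.IsEnd α → x.val * AbVar.toC α = AbVar.toC α * x.val)
    (hnor : ∀ Y ∈ K.TC, x.val * Y * (x⁻¹).val ∈ K.TC) : GenZ K x.val := by
  have hrel := C5X.rel K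
  -- the action on `T`
  obtain ⟨b, hb⟩ : ∃ b : Matrix (Fin n) (Fin n) ℂ, ∀ v, x.val * K.cl v * (x⁻¹).val = K.cl (b *ᵥ v) := by
    have h1 : ∀ i : Fin n, ∃ w, K.cl w = x.val * K.cl (Pi.single i 1) * (x⁻¹).val := by
      intro i
      exact (C8Y.mem_TC_iff K _).1 (hnor _ ((C8Y.mem_TC_iff K _).2 ⟨_, rfl⟩))
    choose w hw using h1
    refine ⟨Matrix.of fun i j => w j i, fun v => ?_⟩
    let F : (Fin n → ℂ) →ₗ[ℂ] Matrix (Idx g) (Idx g) ℂ :=
      ((LinearMap.mulLeft ℂ x.val).comp (LinearMap.mulRight ℂ (x⁻¹).val)).comp (C8Y.clL K)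
    let G : (Fin n → ℂ) →ₗ[ℂ] Matrix (Idx g) (Idx g) ℂ :=
      (C8Y.clL K).comp (Matrix.toLin' (Matrix.of fun i j => w j i))
    have hFG : F = G := by
      refine LinearMap.pi_ext' fun i => LinearMap.ext_ring ?_
      simp only [F, G, LinearMap.comp_apply, LinearMap.mulLeft_apply, LinearMap.mulRight_apply,
        LinearMap.single_apply, Matrix.toLin'_apply, C8Y.clL_apply, Matrix.mulVec_single_one]
      rw [← mul_assoc, ← hw i]
      congr 1
    have h2 := congrArg (fun H : (Fin n → ℂ) →ₗ[ℂ] Matrix (Idx g) (Idx g) ℂ => H v) hFG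
    simp only [F, G, LinearMap.comp_apply, LinearMap.mulLeft_apply, LinearMap.mulRight_apply,
      Matrix.toLin'_apply, C8Y.clL_apply] at h2
    rw [mul_assoc]; exact h2
  have hbil : ∀ v w, K.bil (b *ᵥ v) (b *ᵥ w) = K.bil v w := fun v w =>
    C5X.bil_conj K.pos hrel x (hb v) (hb w)
  have hbth : b * K.thC = K.thC * b := (hC5v g A n m K hm).2 x b (fun α hα => hcom α hα) hb
  obtain ⟨L, hL, hprod⟩ := C10x_proof g A n m K hm b hbth hbil
  obtain ⟨y, hy⟩ : ∃ y : GL (Idx g) ℂ, y = (L.map fun a => C10C.expU (K.Z a)).prod := ⟨_, rfl⟩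
  have hact := expU_act K hC5a L hL
  have hyc := expU_comm K hC5a L hL
  have hyv := expU_prod K L
  rw [← hy] at hyc hyv
  simp only [← hy] at hact
  rw [hprod] at hact
  have e1 : y.val * (y⁻¹).val = 1 := by rw [← Units.val_mul]; simp
  have e2 : (y⁻¹).val * y.val = 1 := by rw [← Units.val_mul]; simp
  -- the quotient is a scalar
  obtain ⟨c, hc⟩ := (hC5a g A n m K).2.2.2.1 ((y⁻¹).val * x.val) (by
    intro α hα
    have h1 : (y⁻¹).val * AbVar.toC α = AbVar.toC α * (y⁻¹).val := by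
      calc (y⁻¹).val * AbVar.toC α = (y⁻¹).val * (AbVar.toC α * y.val) * (y⁻¹).val := by
            rw [mul_assoc, mul_assoc, e1, mul_one]
        _ = (y⁻¹).val * (y.val * AbVar.toC α) * (y⁻¹).val := by rw [hyc α hα]
        _ = AbVar.toC α * (y⁻¹).val := by rw [← mul_assoc, e2, one_mul]
    rw [mul_assoc, hcom α hα, ← mul_assoc, h1, mul_assoc]) (by
    intro v
    have h1 : x.val * K.cl v = K.cl (b *ᵥ v) * x.val := by
      rw [← hb v, mul_assoc _ _ x.val, C5X.inv_mul_self, mul_one]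
    have h2 : (y⁻¹).val * K.cl (b *ᵥ v) = K.cl v * (y⁻¹).val := by
      calc (y⁻¹).val * K.cl (b *ᵥ v) = (y⁻¹).val * (K.cl (b *ᵥ v) * y.val) * (y⁻¹).val := by
            rw [mul_assoc, mul_assoc, e1, mul_one]
        _ = (y⁻¹).val * (y.val * K.cl v) * (y⁻¹).val := by rw [hact v]
        _ = K.cl v * (y⁻¹).val := by rw [← mul_assoc, e2, one_mul]
    rw [mul_assoc, h1, ← mul_assoc, h2, mul_assoc])
  have hxy : x.val = y.val * (c • (1 : Matrix (Idx g) (Idx g) ℂ)) := by
    rw [← hc, ← mul_assoc, e1, one_mul]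
  have hc0 : c ≠ 0 := by
    rintro rfl
    rw [zero_smul, mul_zero] at hxy
    have h1 : x.val * (x⁻¹).val = 1 := by rw [← Units.val_mul]; simp
    rw [hxy, zero_mul] at h1
    exact C5X.one_ne K.pos h1.symm
  refine ⟨c, hc0, L, hL, ?_⟩
  rw [hxy, Matrix.mul_smul, mul_one, hyv]

/-- `Z (v ∧ w) = (cl v * cl w - B(v, w)) / 2` -/
theorem Z_wm (K : KSC A n m) (v w : Fin n → ℂ) :
    K.Z (C5L.wm K v w) = (1 / 2 : ℂ) • (K.cl v * K.cl w - K.bil v w • 1) := by
  have hr := C5X.rel K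
  have h1 : K.Z (C5L.wm K v w) = (1 / 4 : ℂ) • (K.cl v * K.cl w - K.cl w * K.cl v) := by
    have h2 : ∀ u : Fin n → ℂ, K.cl u = ∑ i, u i • K.cl (Pi.single i 1) := by
      intro u
      rw [C5X.cl_eq]
      exact Finset.sum_congr rfl fun i _ => by rw [C5X.cl_single]
    unfold KSC.Z
    have h3 : ∀ i, ((4 * (K.q i : ℂ))⁻¹) • (K.cl (C5L.wm K v w *ᵥ Pi.single i 1) *
        K.cl (Pi.single i 1)) = (1 / 4 : ℂ) • (K.cl v * (w i • K.cl (Pi.single i 1)) -
          K.cl w * (v i • K.cl (Pi.single i 1))) := by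
      intro i
      have hq := C5L.qC_ne K i
      rw [C5L.wm_mulVec, C5L.bil_comm K w, C5L.bil_comm K v, C5L.bil_single, C5L.bil_single,
        sub_eq_add_neg, ← neg_smul, C5X.cl_add, C5X.cl_smul, C5X.cl_smul, add_mul, smul_mul_assoc,
        smul_mul_assoc, mul_smul_comm, mul_smul_comm, smul_add, smul_smul, smul_smul, smul_sub,
        smul_smul, smul_smul, sub_eq_add_neg, ← neg_smul]
      congr 2
      · field_simp
      · field_simp
    rw [Finset.sum_congr rfl fun i _ => h3 i, ← Finset.smul_sum, Finset.sum_sub_distrib,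
      ← Finset.mul_sum, ← Finset.mul_sum, ← h2, ← h2]
  rw [h1]
  have h4 := hr v w
  have h5 : K.cl w * K.cl v = (2 * K.bil v w) • (1 : Matrix (Idx g) (Idx g) ℂ) - K.cl v * K.cl w := by
    rw [← h4]; abel
  rw [h5]
  module

/-- `-1` is an exponential. -/
theorem negC (K : KSC A n m) (hm : 1 ≤ m) : ∃ a ∈ K.S, NormedSpace.exp (K.Z a) = -1 := by
  have hr := C5X.rel K
  obtain ⟨hfr, -, -, -⟩ := C5l_proof g A n m K hm
  have hz := K.lam_root
  obtain ⟨b, b', hb, hb', hd, -, -⟩ := C8D.dual K hz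
  have hpos : 0 < Module.finrank ℂ (K.Tl K.lam) := by rw [hfr _ hz]; omega
  set v := b ⟨0, hpos⟩ with hv
  set w := b' ⟨0, hpos⟩ with hw
  have hvw : K.bil v w = 1 := by
    rw [C5L.bil_comm, hd, if_pos rfl]
  have hvv : K.bil v v = 0 := C5L.orth K (Ne.symm (C5L.conj_ne K hz)) (hb _) (hb _)
  refine ⟨(2 * Real.pi * Complex.I : ℂ) • C5L.wm K v w, K.S.smul_mem _ (C5L.wm_mem K hz (hb _) (hb' _)), ?_⟩
  have h1 : K.Z (C5L.wm K v w) = (1 / 2 : ℂ) • (K.cl v * K.cl w) - (1 / 2 : ℂ) • 1 := by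
    rw [Z_wm, hvw, one_smul, smul_sub]
  obtain ⟨p, hp⟩ : ∃ p : Matrix (Idx g) (Idx g) ℂ, p = (1 / 2 : ℂ) • (K.cl v * K.cl w) := ⟨_, rfl⟩
  have hpp : p * p = p := by
    have h5 : K.cl w * K.cl v = (2 : ℂ) • (1 : Matrix (Idx g) (Idx g) ℂ) - K.cl v * K.cl w := by
      have h6 := hr v w
      rw [hvw, mul_one] at h6
      rw [← h6]; abel
    have h6 : K.cl v * K.cl w * (K.cl v * K.cl w) = (2 : ℂ) • (K.cl v * K.cl w) := by
      have : K.cl v * K.cl w * (K.cl v * K.cl w) = K.cl v * (K.cl w * K.cl v) * K.cl w := by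
        simp only [mul_assoc]
      rw [this, h5, mul_sub, sub_mul, mul_smul_comm, mul_one, smul_mul_assoc, ← mul_assoc,
        C5X.sq hr v, hvv, zero_smul, zero_mul, zero_mul, sub_zero]
    rw [hp, Matrix.smul_mul, Matrix.mul_smul, h6, smul_smul, smul_smul]
    congr 1
    norm_num
  have h2 : K.Z ((2 * Real.pi * Complex.I : ℂ) • C5L.wm K v w) =
      (-(Real.pi * Complex.I) : ℂ) • (1 : Matrix (Idx g) (Idx g) ℂ) + (2 * Real.pi * Complex.I : ℂ) • p := by
    rw [C5X.Z_smul, h1, ← hp, smul_sub, smul_smul]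
    have h3 : (2 * Real.pi * Complex.I : ℂ) * (1 / 2) = Real.pi * Complex.I := by ring
    rw [h3]
    module
  rw [h2, Matrix.exp_add_of_commute _ _ ((Commute.one_left _).smul_left _), E10B.exp_scalar,
    K9X.exp_idem p hpp, Complex.exp_two_pi_mul_I, sub_self, zero_smul, add_zero, mul_one,
    Complex.exp_neg, Complex.exp_pi_mul_I]
  simp

end G2

end Pool.Agent.K3T
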