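import Pool.Agent.K3P.PF
import Pool.Agent.K3E.E10c
import Pool.Agent.K3C.C10x
import Pool.Agent.K3C.C10c
import Pool.Agent.DRB.Assembly3

/-!
# Products: elements whose blocks are products of exponentials
-/

open scoped BigOperators
open Matrix

namespace Pool.Agent.K3T

open Pool.Agent.DRB Pool.Agent.K3D Pool.Agent.K3E Pool.Agent.K3C Pool.Agent.K3P

noncomputable section

namespace G3

open K3P.PFX K3P.Q1 K3P.Q2 K3P.Q3

/-! ### the group -/

/-- `(x, ν)` preserves the stable subspaces of the tensor spaces -/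
def InG {g : ℕ} (A : AbVar g) (x : Matrix (Idx g) (Idx g) ℂ) (ν : ℂ) : Prop :=
  ∀ (t : TData) (E : Submodule ℂ (TIdx t (Idx g) → ℂ)), StabG (Gam A) t E → E.map (TAct t x ν) ≤ E

variable {g : ℕ} {A : AbVar g}

theorem InG.mul {x y : Matrix (Idx g) (Idx g) ℂ} {ν μ : ℂ} (hx : InG A x ν) (hy : InG A y μ) :
    InG A (x * y) (ν * μ) := by
  intro t E hE
  rw [TAct_comp, Submodule.map_comp]
  exact (Submodule.map_mono (hy t E hE)).trans (hx t E hE)

theorem InG.one : InG A 1 1 := by
  intro t E _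
  rw [TAct_one, Submodule.map_id]

theorem InG.exp {X : Matrix (Idx g) (Idx g) ℂ} (hX : InLie (Gam A) X 0) :
    InG A (NormedSpace.exp X) 1 := by
  intro t E hE
  have h := k3_proof (Idx g) t X 0 E (hX t E hE)
  rw [Complex.exp_zero] at h
  exact h

theorem inGdRB_of (hG2 : Stmt_Gb2) (x : GL (Idx g) ℂ) (ν : ℂˣ) (h : InG A x.val ν.val) : InGdRB A x ν := by
  intro t E hE
  have h1 : E.map (TAct t x.val ν.val) ≤ E := h t E fun p hp => hG2 g A t E hE p hp
  have e1 : x.val * (x⁻¹).val = 1 := by rw [← Units.val_mul]; simp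
  have e2 : (x⁻¹).val * x.val = 1 := by rw [← Units.val_mul]; simp
  have f1 : ν.val * (ν⁻¹).val = 1 := by rw [← Units.val_mul]; simp
  have f2 : (ν⁻¹).val * ν.val = 1 := by rw [← Units.val_mul]; simp
  have g1 : (TAct t x.val ν.val).comp (TAct t (x⁻¹).val (ν⁻¹).val) = LinearMap.id := by
    rw [← TAct_comp, e1, f1, TAct_one]
  have g2 : (TAct t (x⁻¹).val (ν⁻¹).val).comp (TAct t x.val ν.val) = LinearMap.id := by
    rw [← TAct_comp, e2, f2, TAct_one]
  let φ : (TIdx t (Idx g) → ℂ) ≃ₗ[ℂ] (TIdx t (Idx g) → ℂ) := LinearEquiv.ofLinearMap (TAct t x.val ν.val) (TAct t (x⁻¹).val (ν⁻¹).val) g1 g2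
  refine Submodule.eq_of_le_of_finrank_eq h1 ?_
  exact LinearEquiv.finrank_map_eq φ E

/-! ### families of blocks -/

variable {r : ℕ} {h : Fin r → ℕ} {B : ∀ i, AbVar (h i)} (D : Decomp A B)

/-- the matrix with given diagonal blocks -/
def Fam (f : ∀ k, Matrix (Idx (h k)) (Idx (h k)) ℂ) : Matrix (Idx g) (Idx g) ℂ := ∑ k, D.emb k (f k)

theorem emb_mul_same (k : Fin r) (X Y : Matrix (Idx (h k)) (Idx (h k)) ℂ) :
    D.emb k X * D.emb k Y = D.emb k (X * Y) := by
  unfold Decomp.emb
  calc _ = toR (D.inc k) * X * (toR (D.prj k) * toR (D.inc k)) * Y * toR (D.prj k) := by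
        simp only [Matrix.mul_assoc]
    _ = _ := by rw [pi_same, Matrix.mul_one]; simp only [Matrix.mul_assoc]

theorem emb_mul_diff {j k : Fin r} (hjk : j ≠ k) (X : Matrix (Idx (h j)) (Idx (h j)) ℂ)
    (Y : Matrix (Idx (h k)) (Idx (h k)) ℂ) : D.emb j X * D.emb k Y = 0 := by
  unfold Decomp.emb
  calc _ = toR (D.inc j) * X * (toR (D.prj j) * toR (D.inc k)) * Y * toR (D.prj k) := by
        simp only [Matrix.mul_assoc]
    _ = _ := by rw [pi_diff D hjk, Matrix.mul_zero, Matrix.zero_mul, Matrix.zero_mul]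

theorem fam_mul (f f' : ∀ k, Matrix (Idx (h k)) (Idx (h k)) ℂ) :
    Fam D f * Fam D f' = Fam D (fun k => f k * f' k) := by
  unfold Fam
  rw [Finset.sum_mul]
  refine Finset.sum_congr rfl fun k _ => ?_
  rw [Finset.mul_sum, Finset.sum_eq_single k]
  · exact emb_mul_same D k _ _
  · intro j _ hj
    exact emb_mul_diff D (Ne.symm hj) _ _
  · intro h
    exact absurd (Finset.mem_univ _) h

theorem fam_one : Fam D (fun _ => 1) = 1 := by
  unfold Fam
  rw [← pi_total D]
  refine Finset.sum_congr rfl fun k _ => ?_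
  unfold Decomp.emb
  rw [Matrix.mul_one]

theorem fam_inc (f : ∀ k, Matrix (Idx (h k)) (Idx (h k)) ℂ) (k : Fin r) :
    Fam D f * toR (D.inc k) = toR (D.inc k) * f k := by
  unfold Fam
  rw [Matrix.sum_mul, Finset.sum_eq_single k]
  · unfold Decomp.emb
    rw [Matrix.mul_assoc, pi_same, Matrix.mul_one]
  · intro j _ hj
    unfold Decomp.emb
    rw [Matrix.mul_assoc, pi_diff D hj, Matrix.mul_zero]
  · intro h
    exact absurd (Finset.mem_univ _) h

theorem ext_inc {X Y : Matrix (Idx g) (Idx g) ℂ} (hXY : ∀ k, X * toR (D.inc k) = Y * toR (D.inc k)) : X = Y := by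
  have h1 : ∀ X : Matrix (Idx g) (Idx g) ℂ, X = ∑ k, (X * toR (D.inc k)) * toR (D.prj k) := by
    intro X
    conv_lhs => rw [← Matrix.mul_one X, ← pi_total D, Finset.mul_sum]
    exact Finset.sum_congr rfl fun k _ => by rw [Matrix.mul_assoc]
  rw [h1 X, h1 Y]
  exact Finset.sum_congr rfl fun k _ => by rw [hXY k]

/-- one block -/
def One (k : Fin r) (y : Matrix (Idx (h k)) (Idx (h k)) ℂ) : ∀ k, Matrix (Idx (h k)) (Idx (h k)) ℂ :=
  Function.update (fun _ => 1) k y

theorem fam_exp (k : Fin r) (Z : Matrix (Idx (h k)) (Idx (h k)) ℂ) :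
    Fam D (One k (NormedSpace.exp Z)) = NormedSpace.exp (D.emb k Z) := by
  refine ext_inc D fun j => ?_
  rw [fam_inc]
  by_cases hj : j = k
  · subst hj
    have h1 : D.emb j Z * toR (D.inc j) = toR (D.inc j) * Z := by
      unfold Decomp.emb
      rw [Matrix.mul_assoc, pi_same, Matrix.mul_one]
    rw [exp_rect _ _ _ h1, One, Function.update_self]
  · have h1 : D.emb k Z * toR (D.inc j) = toR (D.inc j) * (0 : Matrix (Idx (h j)) (Idx (h j)) ℂ) := by
      unfold Decomp.emb
      rw [Matrix.mul_assoc, pi_diff D (Ne.symm hj), Matrix.mul_zero, Matrix.mul_zero]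
    rw [exp_rect _ _ _ h1, One, Function.update_of_ne hj, NormedSpace.exp_zero]

theorem one_mul_one (k : Fin r) (y y' : Matrix (Idx (h k)) (Idx (h k)) ℂ) :
    (fun j => One k y j * One k y' j) = One k (y * y') := by
  funext j
  by_cases hj : j = k
  · subst hj
    simp [One]
  · simp [One, Function.update_of_ne hj]

/-- products of exponentials on a block -/
def PE (k : Fin r) (y : Matrix (Idx (h k)) (Idx (h k)) ℂ) : Prop :=
  ∃ L : List (Matrix (Idx (h k)) (Idx (h k)) ℂ), (∀ Z ∈ L, InLie (Gam A) (D.emb k Z) 0) ∧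
    y = (L.map fun Z => NormedSpace.exp Z).prod

/-- exponentials of elements of the symplectic Lie algebra -/
theorem exp_sim {X R : Matrix (Idx g) (Idx g) ℂ} (hX : Xᵀ * R + R * X = 0) :
    (NormedSpace.exp X)ᵀ * R * NormedSpace.exp X = R := by
  have h1 : Xᵀ * R = R * (-X) := by
    rw [Matrix.mul_neg]
    exact eq_neg_of_add_eq_zero_left hX
  have h2 := CX10.exp_J _ _ R h1
  rw [Matrix.exp_transpose] at h2
  rw [h2, Matrix.mul_assoc, (K8X.exp_mul_exp_neg X).2, Matrix.mul_one]

theorem one_PE (hK2c : Stmt_K2c) (k : Fin r) {y : Matrix (Idx (h k)) (Idx (h k)) ℂ} (hy : PE D k y) :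
    InG A (Fam D (One k y)) 1 ∧ (Fam D (One k y))ᵀ * A.riem * Fam D (One k y) = A.riem := by
  obtain ⟨L, hL, rfl⟩ := hy
  induction L with
  | nil =>
    have h1 : One k (((([] : List (Matrix (Idx (h k)) (Idx (h k)) ℂ)).map fun Z => NormedSpace.exp Z)).prod) =
        fun _ => 1 := by
      funext j
      by_cases hj : j = k
      · subst hj
        simp [One]
      · simp [One, Function.update_of_ne hj]
    rw [h1, fam_one]
    exact ⟨InG.one, by rw [Matrix.transpose_one, Matrix.one_mul, Matrix.mul_one]⟩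
  | cons Z L ih =>
    obtain ⟨h1, h2⟩ := ih fun Z' hZ' => hL Z' (List.mem_cons_of_mem _ hZ')
    have h3 := hL Z List.mem_cons_self
    have h4 : Fam D (One k (((Z :: L).map fun Z => NormedSpace.exp Z).prod)) =
        NormedSpace.exp (D.emb k Z) * Fam D (One k ((L.map fun Z => NormedSpace.exp Z).prod)) := by
      rw [← fam_exp, fam_mul, one_mul_one, List.map_cons, List.prod_cons]
    rw [h4]
    constructor
    · have h5 := (InG.exp h3).mul h1
      rwa [mul_one] at h5
    · have h5 := (hK2c g A _ _ h3).2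
      rw [zero_smul] at h5
      have h6 := exp_sim h5
      calc _ = (Fam D (One k ((L.map fun Z => NormedSpace.exp Z).prod)))ᵀ *
            ((NormedSpace.exp (D.emb k Z))ᵀ * A.riem * NormedSpace.exp (D.emb k Z)) *
            Fam D (One k ((L.map fun Z => NormedSpace.exp Z).prod)) := by
            rw [Matrix.transpose_mul]
            simp only [Matrix.mul_assoc]
        _ = _ := by rw [h6, h2]

/-- families of products of exponentials -/
theorem fam_PE (hK2c : Stmt_K2c) (f : ∀ k, Matrix (Idx (h k)) (Idx (h k)) ℂ) (hf : ∀ k, PE D k (f k)) :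
    InG A (Fam D f) 1 := by
  classical
  have key : ∀ s : Finset (Fin r), InG A (Fam D fun k => if k ∈ s then f k else 1) 1 := by
    intro s
    induction s using Finset.induction_on with
    | empty =>
      simp only [Finset.notMem_empty, if_false]
      rw [fam_one]
      exact InG.one
    | insert k s hk ih =>
      have h1 : (fun j => if j ∈ insert k s then f j else 1) =
          fun j => (if j ∈ s then f j else 1) * One k (f k) j := by
        funext j
        by_cases hj : j = k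
        · subst hj
          simp [One, hk]
        · simp [One, Function.update_of_ne hj, Finset.mem_insert, hj]
      rw [h1, ← fam_mul]
      have h2 := ih.mul (one_PE D hK2c k (hf k)).1
      rwa [mul_one] at h2
  have h1 := key Finset.univ
  simp only [Finset.mem_univ, if_true] at h1
  exact h1

/-- The Riemann form does not vanish on a block. -/
theorem riem_blk_ne (k : Fin r) (hk : 0 < h k) : (toR (D.inc k))ᵀ * A.riem * toR (D.inc k) ≠ 0 := by
  intro h0
  obtain ⟨H, ⟨hH, hpos⟩, hros⟩ := pos2C g A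
  have hE : A.IsEnd (D.inc k * D.prj k) := hom_comp (D.prj_hom k) (D.inc_hom k)
  obtain ⟨β, -, hβ1, hβ2⟩ := hros _ hE
  have hα : AbVar.toC (D.inc k * D.prj k) = toR (D.inc k) * toR (D.prj k) := toR_mul _ _
  obtain ⟨-, -, hdet, -⟩ := leg_proof g A
  have h1 : A.riem * (AbVar.toC β * AbVar.toC (D.inc k * D.prj k)) = 0 := by
    have h2 : (AbVar.toC (D.inc k * D.prj k))ᵀ * A.riem = A.riem * AbVar.toC β := hβ1
    rw [← Matrix.mul_assoc, ← h2, hα, Matrix.transpose_mul]
    calc _ = (toR (D.prj k))ᵀ * ((toR (D.inc k))ᵀ * A.riem * toR (D.inc k)) * toR (D.prj k) := by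
          simp only [Matrix.mul_assoc]
      _ = 0 := by rw [h0, Matrix.mul_zero, Matrix.zero_mul]
  have h2 : AbVar.toC β * AbVar.toC (D.inc k * D.prj k) = 0 := by
    have h3 := congrArg (fun M => A.riem⁻¹ * M) h1
    simp only [← Matrix.mul_assoc, Matrix.nonsing_inv_mul _ hdet, Matrix.mul_zero, Matrix.one_mul] at h3
    exact h3
  have h3 : (AbVar.toC (D.inc k * D.prj k))ᴴ * H * AbVar.toC (D.inc k * D.prj k) = 0 := by
    rw [hβ2, Matrix.mul_assoc, h2, Matrix.mul_zero]
  have h4 : AbVar.toC (D.inc k * D.prj k) = 0 := by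
    ext i j
    by_contra hne
    have h5 : AbVar.toC (D.inc k * D.prj k) *ᵥ (Pi.single j 1) ≠ 0 := by
      intro h6
      apply hne
      have h7 := congrFun h6 i
      rw [Matrix.mulVec_single_one] at h7
      exact h7
    have h6 := hpos _ h5
    have h7 : star (AbVar.toC (D.inc k * D.prj k) *ᵥ (Pi.single j 1 : Idx g → ℂ)) ⬝ᵥ
        (H *ᵥ (AbVar.toC (D.inc k * D.prj k) *ᵥ (Pi.single j 1))) = 0 := by
      rw [Matrix.star_mulVec, ← Matrix.dotProduct_mulVec, Matrix.mulVec_mulVec, Matrix.mulVec_mulVec,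
        h3, Matrix.zero_mulVec, dotProduct_zero]
    rw [h7] at h6
    exact lt_irrefl _ h6
  rw [hα] at h4
  have h5 : toR (D.prj k) * (toR (D.inc k) * toR (D.prj k)) * toR (D.inc k) =
      (1 : Matrix (Idx (h k)) (Idx (h k)) ℂ) := by
    calc _ = (toR (D.prj k) * toR (D.inc k)) * (toR (D.prj k) * toR (D.inc k)) := by
          simp only [Matrix.mul_assoc]
      _ = 1 := by rw [pi_same, Matrix.mul_one]
  rw [h4, Matrix.mul_zero, Matrix.zero_mul] at h5
  exact E5X.one_ne hk h5.symm

/-- Elements whose blocks are scalar multiples of products of exponentials. -/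
theorem group_mem (hG2 : Stmt_Gb2) (hK2a : Stmt_K2a) (hK2c : Stmt_K2c)
    (hs : InLie (Gam A) ((1 / 2 : ℂ) • (1 : Matrix (Idx g) (Idx g) ℂ)) 1)
    (hpos : ∀ k, 0 < h k) (hneg : ∀ k, ∃ Z, InLie (Gam A) (D.emb k Z) 0 ∧ NormedSpace.exp Z = -1)
    (x : GL (Idx g) ℂ) (ν : ℂˣ) (hcom : ∀ α ∈ A.EndQ, x.val * AbVar.toC α = AbVar.toC α * x.val)
    (hsim : x.valᵀ * A.riem * x.val = ν.val • A.riem)
    (hk : ∀ k, ∃ c : ℂ, c ≠ 0 ∧ ∃ y, PE D k y ∧ D.blk k x.val = c • y) : InGdRB A x ν := by
  refine inGdRB_of hG2 x ν ?_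
  -- the blocks
  have hinc : ∀ k, x.val * toR (D.inc k) = toR (D.inc k) * D.blk k x.val := by
    intro k
    have h4 : A.IsEnd (D.inc k * D.prj k) := hom_comp (D.prj_hom k) (D.inc_hom k)
    have h5 := hcom _ h4
    have h6 : AbVar.toC (D.inc k * D.prj k) = toR (D.inc k) * toR (D.prj k) := toR_mul _ _
    rw [h6] at h5
    unfold Decomp.blk
    calc x.val * toR (D.inc k) = x.val * (toR (D.inc k) * toR (D.prj k)) * toR (D.inc k) := by
          rw [Matrix.mul_assoc, Matrix.mul_assoc, pi_same, Matrix.mul_one]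
      _ = _ := by rw [h5]; simp only [Matrix.mul_assoc]
  choose c hc y hy hxy using hk
  have hsq : ∀ k, c k ^ 2 = ν.val := by
    intro k
    obtain ⟨-, h2⟩ := one_PE D hK2c k (hy k)
    have h3 : Fam D (One k (y k)) * toR (D.inc k) = toR (D.inc k) * y k := by
      rw [fam_inc, One, Function.update_self]
    have h4 : (y k)ᵀ * ((toR (D.inc k))ᵀ * A.riem * toR (D.inc k)) * y k =
        (toR (D.inc k))ᵀ * A.riem * toR (D.inc k) := by
      have h5 : (toR (D.inc k) * y k)ᵀ * A.riem * (toR (D.inc k) * y k) =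
          (toR (D.inc k))ᵀ * A.riem * toR (D.inc k) := by
        rw [← h3, Matrix.transpose_mul]
        calc _ = (toR (D.inc k))ᵀ * ((Fam D (One k (y k)))ᵀ * A.riem * Fam D (One k (y k))) *
              toR (D.inc k) := by simp only [Matrix.mul_assoc]
          _ = _ := by rw [h2]
      rw [Matrix.transpose_mul] at h5
      refine Eq.trans ?_ h5
      simp only [Matrix.mul_assoc]
    have h5 : (x.val * toR (D.inc k))ᵀ * A.riem * (x.val * toR (D.inc k)) =
        ν.val • ((toR (D.inc k))ᵀ * A.riem * toR (D.inc k)) := by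
      rw [Matrix.transpose_mul]
      calc _ = (toR (D.inc k))ᵀ * (x.valᵀ * A.riem * x.val) * toR (D.inc k) := by
            simp only [Matrix.mul_assoc]
        _ = _ := by rw [hsim, Matrix.mul_smul, Matrix.smul_mul]
    rw [hinc, hxy, Matrix.transpose_mul, Matrix.transpose_smul] at h5
    have h6 : c k • (y k)ᵀ * (toR (D.inc k))ᵀ * A.riem * (toR (D.inc k) * c k • y k) =
        (c k ^ 2) • ((toR (D.inc k))ᵀ * A.riem * toR (D.inc k)) := by
      rw [← h4]
      simp only [Matrix.smul_mul, Matrix.mul_smul, smul_smul, Matrix.mul_assoc, pow_two]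
    rw [h6] at h5
    have h7 : (c k ^ 2 - ν.val) • ((toR (D.inc k))ᵀ * A.riem * toR (D.inc k)) = 0 := by
      rw [sub_smul, h5, sub_self]
    exact sub_eq_zero.1 ((smul_eq_zero.1 h7).resolve_right (riem_blk_ne D k (hpos k)))
  obtain ⟨c0, hc0⟩ := IsAlgClosed.exists_pow_nat_eq ν.val (n := 2) (by norm_num)
  have hc00 : c0 ≠ 0 := by
    rintro rfl
    apply ν.ne_zero
    rw [← hc0]; norm_num
  have hy' : ∀ k, ∃ y', PE D k y' ∧ D.blk k x.val = c0 • y' := by
    intro k
    have h1 : (c k - c0) * (c k + c0) = 0 := by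
      have h2 := hsq k
      rw [← hc0] at h2
      linear_combination h2
    rcases mul_eq_zero.1 h1 with h2 | h2
    · exact ⟨y k, hy k, by rw [hxy, sub_eq_zero.1 h2]⟩
    · obtain ⟨Z, hZ1, hZ2⟩ := hneg k
      obtain ⟨L, hL, h3⟩ := hy k
      refine ⟨-(y k), ⟨Z :: L, ?_, ?_⟩, ?_⟩
      · intro Z' hZ'
        rcases List.mem_cons.1 hZ' with rfl | h4
        · exact hZ1
        · exact hL Z' h4
      · rw [List.map_cons, List.prod_cons, hZ2, ← h3, neg_mul, one_mul]
      · rw [hxy, eq_neg_of_add_eq_zero_left h2, smul_neg, neg_smul]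
  choose y' hy1 hy2 using hy'
  have hx : x.val = (c0 • (1 : Matrix (Idx g) (Idx g) ℂ)) * Fam D y' := by
    refine ext_inc D fun k => ?_
    rw [hinc, hy2, Matrix.mul_assoc, fam_inc, Matrix.smul_mul, Matrix.one_mul, Matrix.mul_smul]
  have h1 : InG A (c0 • (1 : Matrix (Idx g) (Idx g) ℂ)) (c0 ^ 2) := fun t E hE =>
    E10C.scalar_mem hK2a hs c0 hc00 t E hE
  have h2 := h1.mul (fam_PE D hK2c y' hy1)
  rw [mul_one, hc0, ← hx] at h2
  exact h2

end G3

end

end Pool.Agent.K3T
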