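import Pool.Agent.K3T.G1
import Pool.Agent.K3T.G2
import Pool.Agent.K3T.G3
import Pool.Agent.K3T.Final2

/-!
# Torsors of Hodge classes of products of Kuga-Satake varieties
-/

open scoped BigOperators
open Matrix

namespace Pool.Agent.K3T

open Pool.Agent.DRB Pool.Agent.ABH Pool.Agent.K3D Pool.Agent.K3E Pool.Agent.K3C Pool.Agent.K3P
open Pool.Agent.ABT (Pt IsSubtorsor ZX)

noncomputable section

namespace G4

open K3P.PFX K3P.Q1 K3P.Q2 K3P.Q3 G3

variable {g : ℕ} {A : AbVar g} {r : ℕ} {h : Fin r → ℕ} {B : ∀ i, AbVar (h i)} (D : Decomp A B)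

theorem toC_toR {ι : Type} (α : Matrix ι ι ℚ) : AbVar.toC α = toR α := rfl

/-- the space `T` of a factor -/
def tE (k : Fin r) {n : ℕ} (t : Fin n → Matrix (Idx (h k)) (Idx (h k)) ℚ) : Fin n → Matrix (Idx g) (Idx g) ℚ :=
  fun i => D.inc k * t i * D.prj k

theorem tE_mem (k : Fin r) {n : ℕ} (t : Fin n → Matrix (Idx (h k)) (Idx (h k)) ℚ)
    {Y : Matrix (Idx (h k)) (Idx (h k)) ℂ} (hY : Y ∈ TB t) : toR (D.inc k) * Y * toR (D.prj k) ∈ TB (tE D k t) := by
  induction hY using Submodule.span_induction with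
  | mem x hx =>
    obtain ⟨i, rfl⟩ := hx
    have h1 : toR (D.inc k) * AbVar.toC (t i) * toR (D.prj k) = AbVar.toC (tE D k t i) := by
      rw [toC_toR, toC_toR, ← toR_mul, ← toR_mul]
      rfl
    show toR (D.inc k) * AbVar.toC (t i) * toR (D.prj k) ∈ TB (tE D k t)
    rw [h1]
    exact Submodule.subset_span ⟨i, rfl⟩
  | zero => rw [Matrix.mul_zero, Matrix.zero_mul]; exact Submodule.zero_mem _
  | add a b _ _ ha hb => rw [Matrix.mul_add, Matrix.add_mul]; exact Submodule.add_mem _ ha hb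
  | smul c a _ ha => rw [Matrix.mul_smul, Matrix.smul_mul]; exact Submodule.smul_mem _ c ha

theorem tE_blk (k : Fin r) {n : ℕ} (t : Fin n → Matrix (Idx (h k)) (Idx (h k)) ℚ)
    {Y : Matrix (Idx g) (Idx g) ℂ} (hY : Y ∈ TB (tE D k t)) : toR (D.prj k) * Y * toR (D.inc k) ∈ TB t := by
  induction hY using Submodule.span_induction with
  | mem x hx =>
    obtain ⟨i, rfl⟩ := hx
    have h1 : toR (D.prj k) * AbVar.toC (tE D k t i) * toR (D.inc k) = AbVar.toC (t i) := by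
      have h2 : AbVar.toC (tE D k t i) = toR (D.inc k) * toR (t i) * toR (D.prj k) := by
        rw [← toR_mul, ← toR_mul]
        rfl
      rw [h2]
      calc _ = (toR (D.prj k) * toR (D.inc k)) * toR (t i) * (toR (D.prj k) * toR (D.inc k)) := by
            simp only [Matrix.mul_assoc]
        _ = _ := by rw [pi_same, Matrix.one_mul, Matrix.mul_one]; rfl
    show toR (D.prj k) * AbVar.toC (tE D k t i) * toR (D.inc k) ∈ TB t
    rw [h1]
    exact Submodule.subset_span ⟨i, rfl⟩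
  | zero => rw [Matrix.mul_zero, Matrix.zero_mul]; exact Submodule.zero_mem _
  | add a b _ _ ha hb => rw [Matrix.mul_add, Matrix.add_mul]; exact Submodule.add_mem _ ha hb
  | smul c a _ ha => rw [Matrix.mul_smul, Matrix.smul_mul]; exact Submodule.smul_mem _ c ha

/-- The group of the Hodge classes normalizes the space `T` of a factor. -/
theorem blk_norm (k : Fin r) (hk : 0 < h k) {n : ℕ} (t : Fin n → Matrix (Idx (h k)) (Idx (h k)) ℚ) (q : Fin n → ℚ)
    (sq : ∀ i, t i * t i = q i • (1 : Matrix (Idx (h k)) (Idx (h k)) ℚ))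
    (anti : ∀ i j, i ≠ j → t i * t j = -(t j * t i)) (q_ne : ∀ i, q i ≠ 0) (drb : DrbT (B k) t)
    (hdg : ∀ (z : ℂˣ) (x : GL (Idx (h k)) ℂ), (B k).IsMu z x → ∀ i,
      x.val * AbVar.toC (t i) * (x⁻¹).val ∈ TB t)
    (y : (Pt g)ˣ) (hy : y ∈ GH A) : ∀ Y ∈ TB t,
      D.blk k (y : Pt g).1 * Y * D.blk k ((y⁻¹ : (Pt g)ˣ) : Pt g).1 ∈ TB t := by
  have hcl := cliff_of sq anti
  have hE : A.IsEnd (D.inc k * D.prj k) := hom_comp (D.prj_hom k) (D.inc_hom k)
  have htr : (D.inc k * D.prj k).trace ≠ 0 := by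
    rw [Matrix.trace_mul_comm, D.same k]
    exact trace_one_ne hk
  have hC : Cliff (tE D k t) q (D.inc k * D.prj k) := by
    intro i j
    have h1 : ∀ i j, tE D k t i * tE D k t j = D.inc k * (t i * t j) * D.prj k := by
      intro i j
      unfold tE
      calc _ = D.inc k * t i * (D.prj k * D.inc k) * t j * D.prj k := by
            simp only [Matrix.mul_assoc]
        _ = _ := by rw [D.same k, Matrix.mul_one]; simp only [Matrix.mul_assoc]
    rw [h1, h1, ← Matrix.add_mul, ← Matrix.mul_add, hcl i j, Matrix.mul_smul, Matrix.smul_mul, Matrix.mul_one]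
  obtain ⟨ρ₁, a1, -, a3⟩ := D.inc_hom k
  obtain ⟨ρ₂, b1, -, b3⟩ := D.prj_hom k
  have e1 : A.per * A.per⁻¹ = 1 := Matrix.mul_nonsing_inv _ A.nondeg
  have e2 : A.per⁻¹ * A.per = 1 := Matrix.nonsing_inv_mul _ A.nondeg
  have f1 : (B k).per * (B k).per⁻¹ = 1 := Matrix.mul_nonsing_inv _ (B k).nondeg
  have f2 : (B k).per⁻¹ * (B k).per = 1 := Matrix.nonsing_inv_mul _ (B k).nondeg
  have hdrb : DrbT A (tE D k t) := by
    intro i
    have h1 : A.per * AbVar.toC (tE D k t i) * A.per⁻¹ =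
        ρ₁ * ((B k).per * AbVar.toC (t i) * (B k).per⁻¹) * ρ₂ := by
      have h2 : AbVar.toC (tE D k t i) = toR (D.inc k) * toR (t i) * toR (D.prj k) := by
        rw [← toR_mul, ← toR_mul]
        rfl
      have h3 : ρ₂ = (B k).per * toR (D.prj k) * A.per⁻¹ := by
        rw [b3, Matrix.mul_assoc, e1, Matrix.mul_one]
      rw [h2, h3]
      calc A.per * (toR (D.inc k) * toR (t i) * toR (D.prj k)) * A.per⁻¹
          = (A.per * toR (D.inc k)) * toR (t i) * toR (D.prj k) * A.per⁻¹ := by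
            simp only [Matrix.mul_assoc]
        _ = ρ₁ * (B k).per * toR (t i) * ((1 : Matrix (Idx (h k)) (Idx (h k)) ℂ) * toR (D.prj k)) * A.per⁻¹ := by
            rw [a3, Matrix.one_mul]
        _ = ρ₁ * (B k).per * toR (t i) * ((B k).per⁻¹ * (B k).per * toR (D.prj k)) * A.per⁻¹ := by
            rw [f2]
        _ = _ := by
            rw [toC_toR]
            simp only [Matrix.mul_assoc]
    rw [h1]
    have h4 := drb i
    generalize (B k).per * AbVar.toC (t i) * (B k).per⁻¹ = W at h4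
    induction h4 using Submodule.span_induction with
    | mem Y hY =>
      obtain ⟨h5, h6⟩ := hY
      refine Submodule.subset_span ⟨?_, ?_⟩
      · intro u v
        rw [Matrix.mul_apply]
        refine AbVar.isAlgebraic_sum _ _ fun l _ => IsAlgebraic.mul ?_ (b1 l v)
        rw [Matrix.mul_apply]
        exact AbVar.isAlgebraic_sum _ _ fun l' _ => (a1 u l').mul (h5 l' l)
      · have h7 : A.per⁻¹ * (ρ₁ * Y * ρ₂) * A.per =
            toR (D.inc k) * ((B k).per⁻¹ * Y * (B k).per) * toR (D.prj k) := by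
          have h8 : A.per⁻¹ * ρ₁ = toR (D.inc k) * (B k).per⁻¹ := by
            calc A.per⁻¹ * ρ₁ = A.per⁻¹ * (ρ₁ * (B k).per) * (B k).per⁻¹ := by
                  rw [Matrix.mul_assoc, Matrix.mul_assoc, f1, Matrix.mul_one]
              _ = _ := by rw [← a3, ← Matrix.mul_assoc, e2, Matrix.one_mul]
          calc A.per⁻¹ * (ρ₁ * Y * ρ₂) * A.per = (A.per⁻¹ * ρ₁) * Y * (ρ₂ * A.per) := by
                simp only [Matrix.mul_assoc]
            _ = _ := by
                rw [h8, ← b3]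
                simp only [Matrix.mul_assoc]
        rw [h7]
        exact tE_mem D k t h6
    | zero => rw [Matrix.mul_zero, Matrix.zero_mul]; exact Submodule.zero_mem _
    | add a b _ _ ha hb => rw [Matrix.mul_add, Matrix.add_mul]; exact Submodule.add_mem _ ha hb
    | smul c a _ ha => rw [Matrix.mul_smul, Matrix.smul_mul]; exact Submodule.smul_mem _ c ha
  have hhdg : ∀ (z : ℂˣ) (x : GL (Idx g) ℂ), A.IsMu z x → ∀ i,
      x.val * AbVar.toC (tE D k t i) * (x⁻¹).val ∈ TB (tE D k t) := by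
    intro z x hx i
    obtain ⟨w, hw⟩ := SPH.HPI_.exists_mu (B k) z
    have h1 := mu_hom hx hw (D.prj_hom k)
    have h2 := mu_hom hw hx (D.inc_hom k)
    have hxx : x.val * (x⁻¹).val = 1 := by rw [← Units.val_mul, mul_inv_cancel, Units.val_one]
    have hww : (w⁻¹).val * w.val = 1 := by rw [← Units.val_mul, inv_mul_cancel, Units.val_one]
    have h3 : toR (D.prj k) * (x⁻¹).val = (w⁻¹).val * toR (D.prj k) := by
      calc toR (D.prj k) * (x⁻¹).val = (w⁻¹).val * (w.val * toR (D.prj k)) * (x⁻¹).val := by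
            rw [← Matrix.mul_assoc (w⁻¹).val, hww, Matrix.one_mul]
        _ = _ := by rw [h1, Matrix.mul_assoc, Matrix.mul_assoc, hxx, Matrix.mul_one]
    have h4 : x.val * AbVar.toC (tE D k t i) * (x⁻¹).val =
        toR (D.inc k) * (w.val * AbVar.toC (t i) * (w⁻¹).val) * toR (D.prj k) := by
      have h5 : AbVar.toC (tE D k t i) = toR (D.inc k) * toR (t i) * toR (D.prj k) := by
        rw [← toR_mul, ← toR_mul]
        rfl
      rw [h5]
      calc x.val * (toR (D.inc k) * toR (t i) * toR (D.prj k)) * (x⁻¹).val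
          = (x.val * toR (D.inc k)) * toR (t i) * (toR (D.prj k) * (x⁻¹).val) := by
            simp only [Matrix.mul_assoc]
        _ = _ := by
            rw [h2, h3, toC_toR]
            simp only [Matrix.mul_assoc]
    rw [h4]
    exact tE_mem D k t (hdg z w hw i)
  intro Y hY
  have h1 := gh_norm' A (tE D k t) q _ hE htr q_ne hC hdrb hhdg y hy _ (tE_mem D k t hY)
  have h2 := tE_blk D k t h1
  have h3 : toR (D.prj k) * ((y : Pt g).1 * (toR (D.inc k) * Y * toR (D.prj k)) *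
      ((y⁻¹ : (Pt g)ˣ) : Pt g).1) * toR (D.inc k) =
      D.blk k (y : Pt g).1 * Y * D.blk k ((y⁻¹ : (Pt g)ˣ) : Pt g).1 := by
    unfold Decomp.blk
    simp only [Matrix.mul_assoc]
  rwa [h3] at h2

/-- the block of a unit which commutes with the projections -/
theorem blk_inv (x y : Matrix (Idx g) (Idx g) ℂ) (hxy : x * y = 1)
    (hcom : ∀ α ∈ A.EndQ, x * AbVar.toC α = AbVar.toC α * x) (k : Fin r) : D.blk k x * D.blk k y = 1 := by
  have h4 : A.IsEnd (D.inc k * D.prj k) := hom_comp (D.prj_hom k) (D.inc_hom k)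
  have h5 := hcom _ h4
  have h6 : AbVar.toC (D.inc k * D.prj k) = toR (D.inc k) * toR (D.prj k) := toR_mul _ _
  rw [h6] at h5
  unfold Decomp.blk
  calc toR (D.prj k) * x * toR (D.inc k) * (toR (D.prj k) * y * toR (D.inc k))
      = toR (D.prj k) * (x * (toR (D.inc k) * toR (D.prj k))) * y * toR (D.inc k) := by
        simp only [Matrix.mul_assoc]
    _ = (toR (D.prj k) * toR (D.inc k)) * toR (D.prj k) * (x * y) * toR (D.inc k) := by
        rw [h5]
        simp only [Matrix.mul_assoc]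
    _ = 1 := by rw [hxy, pi_same, Matrix.one_mul, Matrix.mul_one, pi_same]

/-- blocks commute with the endomorphisms of the factors -/
theorem blk_comm (x : Matrix (Idx g) (Idx g) ℂ)
    (hcom : ∀ α ∈ A.EndQ, x * AbVar.toC α = AbVar.toC α * x) (k : Fin r) (α : Matrix (Idx (h k)) (Idx (h k)) ℚ)
    (hα : (B k).IsEnd α) : D.blk k x * AbVar.toC α = AbVar.toC α * D.blk k x := by
  have h4 : A.IsEnd (D.inc k * (α * D.prj k)) := hom_comp (hom_comp (D.prj_hom k) hα) (D.inc_hom k)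
  have h5 := hcom _ h4
  have h6 : AbVar.toC (D.inc k * (α * D.prj k)) = toR (D.inc k) * (toR α * toR (D.prj k)) := by
    rw [← toR_mul, ← toR_mul]
    rfl
  rw [h6] at h5
  have h7 := congrArg (fun M => toR (D.prj k) * M * toR (D.inc k)) h5
  unfold Decomp.blk
  rw [toC_toR]
  calc toR (D.prj k) * x * toR (D.inc k) * toR α
      = toR (D.prj k) * (x * (toR (D.inc k) * (toR α * toR (D.prj k)))) * toR (D.inc k) := by
        simp only [Matrix.mul_assoc]
        rw [pi_same, Matrix.mul_one]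
    _ = toR (D.prj k) * (toR (D.inc k) * (toR α * toR (D.prj k)) * x) * toR (D.inc k) := h7
    _ = (toR (D.prj k) * toR (D.inc k)) * toR α * (toR (D.prj k) * x * toR (D.inc k)) := by
        simp only [Matrix.mul_assoc]
    _ = _ := by rw [pi_same, Matrix.one_mul]

end G4

open K3P.PFX K3P.Q1 K3P.Q2 K3P.Q3 G3 G4

/-- The torsor of Hodge classes of a product of Kuga-Satake varieties. -/
theorem hodgeM_of {g : ℕ} {A : AbVar g} {r s : ℕ} {h : Fin (r + s) → ℕ} {B : ∀ i, AbVar (h i)} (D : Decomp A B)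
    {n₁ m₁ : Fin r → ℕ} (K₁ : ∀ i, KSE (B (Fin.castAdd s i)) (n₁ i) (m₁ i))
    {n₂ m₂ : Fin s → ℕ} (K₂ : ∀ j, KSC (B (Fin.natAdd r j)) (n₂ j) (m₂ j))
    (c1 : ∀ i, 3 ≤ m₁ i) (c2 : ∀ j, 1 ≤ m₂ j)
    (hs : InLie (Gam A) ((1 / 2 : ℂ) • (1 : Matrix (Idx g) (Idx g) ℂ)) 1)
    (f2 : ∀ i, ∀ x ∈ (K₁ i).S, InLie (Gam A) (D.emb (Fin.castAdd s i) ((K₁ i).Z x)) 0)
    (f3 : ∀ j, ∀ y ∈ (K₂ j).S, InLie (Gam A) (D.emb (Fin.natAdd r j) ((K₂ j).Z y)) 0) :
    IsLeast {S : Set (Pt g) | IsSubtorsor S ∧ ZX A ⊆ S} (ABH.Omega A) := by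
  refine ABH.least A fun y hy => ?_
  have hcom : ∀ α ∈ A.EndQ, (y : Pt g).1 * AbVar.toC α = AbVar.toC α * (y : Pt g).1 := fun α hα => GH_comm hy α hα
  have hcom' : ∀ α ∈ A.EndQ, ((y⁻¹ : (Pt g)ˣ) : Pt g).1 * AbVar.toC α =
      AbVar.toC α * ((y⁻¹ : (Pt g)ˣ) : Pt g).1 := fun α hα => GH_comm ((GH A).inv_mem hy) α hα
  have e1 : (y : Pt g).1 * ((y⁻¹ : (Pt g)ˣ) : Pt g).1 = 1 := congrArg Prod.fst y.mul_inv
  have e2 : ((y⁻¹ : (Pt g)ˣ) : Pt g).1 * (y : Pt g).1 = 1 := congrArg Prod.fst y.inv_mul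
  have hpos : ∀ k, 0 < h k := by
    intro k
    refine Fin.addCases (fun i => (K₁ i).pos) (fun j => (K₂ j).pos) k
  let b : ∀ k, GL (Idx (h k)) ℂ := fun k =>
    ⟨D.blk k (y : Pt g).1, D.blk k ((y⁻¹ : (Pt g)ˣ) : Pt g).1, blk_inv D _ _ e1 hcom k, blk_inv D _ _ e2 hcom' k⟩
  refine group_mem D gb2_proof k2aC k2cC hs hpos ?_ _ _ hcom (GH_sim hy) ?_
  · intro k
    refine Fin.addCases (fun i => ?_) (fun j => ?_) k
    · obtain ⟨a, ha, h1⟩ := G1.negE (K₁ i) E5l_proof (c1 i)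
      exact ⟨_, f2 i a ha, h1⟩
    · obtain ⟨a, ha, h1⟩ := G2.negC (K₂ j) (c2 j)
      exact ⟨_, f3 j a ha, h1⟩
  · intro k
    refine Fin.addCases (fun i => ?_) (fun j => ?_) k
    · have hn := blk_norm D (Fin.castAdd s i) (K₁ i).pos (K₁ i).t (K₁ i).q (K₁ i).sq (K₁ i).anti (K₁ i).q_ne
        (K₁ i).drb (K₁ i).hdg y hy
      have hgood : E10C.Good (K₁ i) (b (Fin.castAdd s i)) := by
        refine ⟨fun α hα => blk_comm D _ hcom _ α hα, fun v => ?_⟩
        obtain ⟨v', hv'⟩ := (E5X.mem_TC (K₁ i)).1 (hn ((K₁ i).cl v) ((E5X.mem_TC (K₁ i)).2 ⟨v, rfl⟩))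
        exact ⟨v', (E10C.conj_iff (b (Fin.castAdd s i)) v v').1 hv'⟩
      obtain ⟨c, hc, L, hL, h1⟩ := G1.genE (K₁ i) descqC E5l_proof E5a_proof (c1 i) _ hgood
      refine ⟨c, hc, _, ⟨L.map (K₁ i).Z, ?_, ?_⟩, h1⟩
      · intro Z hZ
        obtain ⟨a, ha, rfl⟩ := List.mem_map.1 hZ
        exact f2 i a (hL a ha)
      · rw [List.map_map]
        rfl
    · have hn := blk_norm D (Fin.natAdd r j) (K₂ j).pos (K₂ j).t (K₂ j).q (K₂ j).sq (K₂ j).anti (K₂ j).q_ne
        (K₂ j).drb (K₂ j).hdg y hy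
      obtain ⟨c, hc, L, hL, h1⟩ := G2.genC (K₂ j) c5aC c5vC (c2 j) (b (Fin.natAdd r j))
        (fun α hα => blk_comm D _ hcom _ α hα) hn
      refine ⟨c, hc, _, ⟨L.map (K₂ j).Z, ?_, ?_⟩, h1⟩
      · intro Z hZ
        obtain ⟨a, ha, rfl⟩ := List.mem_map.1 hZ
        exact f3 j a (hL a ha)
      · rw [List.map_map]
        rfl

end

end Pool.Agent.K3T
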