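import Pool.Agent.ABT.Main
import Pool.Agent.K3T.Defs
import Pool.Agent.K3T.Ann

/-!
# The torsor `OmegaT`
-/

open scoped BigOperators
open Matrix

namespace Pool.Agent.K3T

open Pool.Agent.DRB Pool.Agent.ABT

noncomputable section

variable {g n : ℕ}

theorem unit_inv1 (h : (Pt g)ˣ) : ((h : Pt g).1)⁻¹ = ((h⁻¹ : (Pt g)ˣ) : Pt g).1 := by
  have h1 : (h : Pt g).1 * ((h⁻¹ : (Pt g)ˣ) : Pt g).1 = 1 := congrArg Prod.fst h.mul_inv
  exact Matrix.inv_eq_right_inv h1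

/-- the group -/
def GT (A : AbVar g) (t : Fin n → Matrix (Idx g) (Idx g) ℚ) : Subgroup (Pt g)ˣ where
  carrier := {h | h ∈ Gr A ∧ ∀ Y ∈ TB t, (h : Pt g).1 * Y * ((h⁻¹ : (Pt g)ˣ) : Pt g).1 ∈ TB t}
  one_mem' := by
    refine ⟨(Gr A).one_mem, fun Y hY => ?_⟩
    simpa using hY
  mul_mem' := by
    rintro x y ⟨hx, hx'⟩ ⟨hy, hy'⟩
    refine ⟨(Gr A).mul_mem hx hy, fun Y hY => ?_⟩
    have h1 : ((x * y : (Pt g)ˣ) : Pt g).1 = (x : Pt g).1 * (y : Pt g).1 := rfl
    have h2 : (((x * y)⁻¹ : (Pt g)ˣ) : Pt g).1 = ((y⁻¹ : (Pt g)ˣ) : Pt g).1 * ((x⁻¹ : (Pt g)ˣ) : Pt g).1 := by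
      rw [_root_.mul_inv_rev]
      rfl
    rw [h1, h2]
    have h3 : (x : Pt g).1 * (y : Pt g).1 * Y * (((y⁻¹ : (Pt g)ˣ) : Pt g).1 * ((x⁻¹ : (Pt g)ˣ) : Pt g).1) =
        (x : Pt g).1 * ((y : Pt g).1 * Y * ((y⁻¹ : (Pt g)ˣ) : Pt g).1) * ((x⁻¹ : (Pt g)ˣ) : Pt g).1 := by
      simp only [Matrix.mul_assoc]
    rw [h3]
    exact hx' _ (hy' _ hY)
  inv_mem' := by
    rintro x ⟨hx, hx'⟩
    refine ⟨(Gr A).inv_mem hx, fun Y hY => ?_⟩
    have e1 : (x : Pt g).1 * ((x⁻¹ : (Pt g)ˣ) : Pt g).1 = 1 := congrArg Prod.fst x.mul_inv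
    have e2 : ((x⁻¹ : (Pt g)ˣ) : Pt g).1 * (x : Pt g).1 = 1 := congrArg Prod.fst x.inv_mul
    rw [inv_inv]
    let f : TB t →ₗ[ℂ] TB t :=
      { toFun := fun Z => ⟨(x : Pt g).1 * Z.1 * ((x⁻¹ : (Pt g)ˣ) : Pt g).1, hx' Z.1 Z.2⟩
        map_add' := by
          intro Z W
          apply Subtype.ext
          simp only [Submodule.coe_add, mul_add, add_mul]
        map_smul' := by
          intro c Z
          apply Subtype.ext
          simp only [Submodule.coe_smul, Matrix.mul_smul, Matrix.smul_mul, RingHom.id_apply] }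
    have hback : ∀ Z : Matrix (Idx g) (Idx g) ℂ, ((x⁻¹ : (Pt g)ˣ) : Pt g).1 *
        ((x : Pt g).1 * Z * ((x⁻¹ : (Pt g)ˣ) : Pt g).1) * (x : Pt g).1 = Z := by
      intro Z
      calc _ = (((x⁻¹ : (Pt g)ˣ) : Pt g).1 * (x : Pt g).1) * Z *
            (((x⁻¹ : (Pt g)ˣ) : Pt g).1 * (x : Pt g).1) := by simp only [mul_assoc]
        _ = Z := by rw [e2, one_mul, mul_one]
    have hinj : Function.Injective f := by
      intro Z W hZW
      have h4 : (x : Pt g).1 * Z.1 * ((x⁻¹ : (Pt g)ˣ) : Pt g).1 =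
          (x : Pt g).1 * W.1 * ((x⁻¹ : (Pt g)ˣ) : Pt g).1 := congrArg Subtype.val hZW
      apply Subtype.ext
      rw [← hback Z.1, h4, hback]
    obtain ⟨Z, hZ⟩ := (LinearMap.injective_iff_surjective.1 hinj) ⟨Y, hY⟩
    have h4 : (x : Pt g).1 * Z.1 * ((x⁻¹ : (Pt g)ˣ) : Pt g).1 = Y := congrArg Subtype.val hZ
    rw [← h4, hback]
    exact Z.2

theorem mem_GT (A : AbVar g) (t : Fin n → Matrix (Idx g) (Idx g) ℚ) (h : (Pt g)ˣ) :
    h ∈ GT A t ↔ h ∈ Gr A ∧ ∀ i, (h : Pt g).1 * AbVar.toC (t i) * ((h⁻¹ : (Pt g)ˣ) : Pt g).1 ∈ TB t := by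
  constructor
  · rintro ⟨h1, h2⟩
    exact ⟨h1, fun i => h2 _ (Submodule.subset_span ⟨i, rfl⟩)⟩
  · rintro ⟨h1, h2⟩
    refine ⟨h1, fun Y hY => ?_⟩
    induction hY using Submodule.span_induction with
    | mem x hx =>
      obtain ⟨i, rfl⟩ := hx
      exact h2 i
    | zero => rw [Matrix.mul_zero, Matrix.zero_mul]; exact Submodule.zero_mem _
    | add a b _ _ ha hb => rw [mul_add, add_mul]; exact Submodule.add_mem _ ha hb
    | smul c a _ ha => rw [Matrix.mul_smul, Matrix.smul_mul]; exact Submodule.smul_mem _ c ha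

/-! ### linear forms -/

/-- the matrix of a vector -/
def mt (v : Idx g × Idx g → ℂ) : Matrix (Idx g) (Idx g) ℂ := Matrix.of fun i j => v (i, j)

/-- the vector of a matrix -/
def vc (Y : Matrix (Idx g) (Idx g) ℂ) : Idx g × Idx g → ℂ := fun p => Y p.1 p.2

theorem mt_vc (Y : Matrix (Idx g) (Idx g) ℂ) : mt (vc Y) = Y := rfl

/-- the space of vectors of a space of matrices -/
def DD (U : Submodule ℂ (Matrix (Idx g) (Idx g) ℂ)) : Submodule ℂ (Idx g × Idx g → ℂ) where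
  carrier := {v | mt v ∈ U}
  zero_mem' := U.zero_mem
  add_mem' := by
    intro a b ha hb
    exact U.add_mem ha hb
  smul_mem' := by
    intro c a ha
    exact U.smul_mem c ha

theorem vc_mem {U : Submodule ℂ (Matrix (Idx g) (Idx g) ℂ)} {Y : Matrix (Idx g) (Idx g) ℂ} :
    vc Y ∈ DD U ↔ Y ∈ U := Iff.rfl

theorem TB_stable (t : Fin n → Matrix (Idx g) (Idx g) ℚ) (σ : ℂ ≃ₐ[ℚ] ℂ) :
    ∀ v ∈ DD (TB t), (fun k => σ (v k)) ∈ DD (TB t) := by
  intro v hv
  have hmap : ∀ Y ∈ TB t, Y.map σ ∈ TB t := by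
    intro Y hY
    induction hY using Submodule.span_induction with
    | mem x hx =>
      obtain ⟨i, rfl⟩ := hx
      have : (AbVar.toC (t i)).map σ = AbVar.toC (t i) := by
        ext a b
        rw [Matrix.map_apply]
        show σ ((t i a b : ℚ) : ℂ) = ((t i a b : ℚ) : ℂ)
        exact map_ratCast σ _
      show (AbVar.toC (t i)).map σ ∈ TB t
      rw [this]
      exact Submodule.subset_span ⟨i, rfl⟩
    | zero =>
      have : (0 : Matrix (Idx g) (Idx g) ℂ).map σ = 0 := by ext a b; simp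
      rw [this]; exact Submodule.zero_mem _
    | add a b _ _ ha hb =>
      have : (a + b).map σ = a.map σ + b.map σ := by ext i j; simp
      rw [this]; exact Submodule.add_mem _ ha hb
    | smul c a _ ha =>
      have : (c • a).map σ = σ c • a.map σ := by ext i j; simp
      rw [this]; exact Submodule.smul_mem _ _ ha
  exact hmap _ hv

/-- the condition that `T` is a de Rham-Betti subobject -/
def DrbT (A : AbVar g) (t : Fin n → Matrix (Idx g) (Idx g) ℚ) : Prop :=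
  ∀ i, A.per * AbVar.toC (t i) * A.per⁻¹ ∈ Submodule.span ℂ
    {Y : Matrix (Idx g) (Idx g) ℂ | (∀ r s, IsAlgebraic ℚ (Y r s)) ∧ A.per⁻¹ * Y * A.per ∈ TB t}

theorem mem_TdR (A : AbVar g) (t : Fin n → Matrix (Idx g) (Idx g) ℚ) (Y : Matrix (Idx g) (Idx g) ℂ) :
    Y ∈ TdR A t ↔ A.per⁻¹ * Y * A.per ∈ TB t := by
  have e1 : A.per * A.per⁻¹ = 1 := Matrix.mul_nonsing_inv _ A.nondeg
  have e2 : A.per⁻¹ * A.per = 1 := Matrix.nonsing_inv_mul _ A.nondeg
  constructor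
  · intro hY
    induction hY using Submodule.span_induction with
    | mem x hx =>
      obtain ⟨i, rfl⟩ := hx
      have : A.per⁻¹ * (A.per * AbVar.toC (t i) * A.per⁻¹) * A.per = AbVar.toC (t i) := by
        calc _ = (A.per⁻¹ * A.per) * AbVar.toC (t i) * (A.per⁻¹ * A.per) := by simp only [mul_assoc]
          _ = _ := by rw [e2, one_mul, mul_one]
      show A.per⁻¹ * (A.per * AbVar.toC (t i) * A.per⁻¹) * A.per ∈ TB t
      rw [this]
      exact Submodule.subset_span ⟨i, rfl⟩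
    | zero => rw [Matrix.mul_zero, Matrix.zero_mul]; exact Submodule.zero_mem _
    | add a b _ _ ha hb => rw [mul_add, add_mul]; exact Submodule.add_mem _ ha hb
    | smul c a _ ha => rw [Matrix.mul_smul, Matrix.smul_mul]; exact Submodule.smul_mem _ c ha
  · intro hY
    have h1 : ∀ Z ∈ TB t, A.per * Z * A.per⁻¹ ∈ TdR A t := by
      intro Z hZ
      induction hZ using Submodule.span_induction with
      | mem x hx =>
        obtain ⟨i, rfl⟩ := hx
        exact Submodule.subset_span ⟨i, rfl⟩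
      | zero => rw [Matrix.mul_zero, Matrix.zero_mul]; exact Submodule.zero_mem _
      | add a b _ _ ha hb => rw [mul_add, add_mul]; exact Submodule.add_mem _ ha hb
      | smul c a _ ha => rw [Matrix.mul_smul, Matrix.smul_mul]; exact Submodule.smul_mem _ c ha
    have h2 := h1 _ hY
    have : A.per * (A.per⁻¹ * Y * A.per) * A.per⁻¹ = Y := by
      calc _ = (A.per * A.per⁻¹) * Y * (A.per * A.per⁻¹) := by simp only [mul_assoc]
        _ = _ := by rw [e1, one_mul, mul_one]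
    rwa [this] at h2

theorem TdR_stable (A : AbVar g) (t : Fin n → Matrix (Idx g) (Idx g) ℚ) (hdrb : DrbT A t)
    (τ : ℂ ≃ₐ[ℚ] ℂ) (hτ : τ ∈ GalA) :
    ∀ v ∈ DD (TdR A t), (fun k => τ (v k)) ∈ DD (TdR A t) := by
  intro v hv
  have hspan : TdR A t ≤ Submodule.span ℂ
      {Y : Matrix (Idx g) (Idx g) ℂ | (∀ r s, IsAlgebraic ℚ (Y r s)) ∧ A.per⁻¹ * Y * A.per ∈ TB t} := by
    refine Submodule.span_le.2 ?_
    rintro _ ⟨i, rfl⟩
    exact hdrb i
  have hmap : ∀ Y ∈ Submodule.span ℂ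
      {Y : Matrix (Idx g) (Idx g) ℂ | (∀ r s, IsAlgebraic ℚ (Y r s)) ∧ A.per⁻¹ * Y * A.per ∈ TB t},
      Y.map τ ∈ TdR A t := by
    intro Y hY
    induction hY using Submodule.span_induction with
    | mem x hx =>
      obtain ⟨h1, h2⟩ := hx
      have : x.map τ = x := by
        ext a b
        rw [Matrix.map_apply]
        exact hτ _ (h1 a b)
      rw [this]
      exact (mem_TdR A t x).2 h2
    | zero =>
      have : (0 : Matrix (Idx g) (Idx g) ℂ).map τ = 0 := by ext a b; simp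
      rw [this]; exact Submodule.zero_mem _
    | add a b _ _ ha hb =>
      have : (a + b).map τ = a.map τ + b.map τ := by ext i j; simp
      rw [this]; exact Submodule.add_mem _ ha hb
    | smul c a _ ha =>
      have : (c • a).map τ = τ c • a.map τ := by ext i j; simp
      rw [this]; exact Submodule.smul_mem _ _ ha
  exact hmap _ (hspan hv)

theorem galA_symm (τ : ℂ ≃ₐ[ℚ] ℂ) (hτ : τ ∈ GalA) : τ.symm ∈ GalA := by
  intro z hz
  have h1 := hτ z hz
  have h2 := congrArg τ.symm h1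
  rw [AlgEquiv.symm_apply_apply] at h2
  exact h2.symm

/-! ### the polynomials -/

section Poly

variable {K : Type} [CommRing K] [Algebra K ℂ]

/-- the polynomial expressing that a linear form vanishes -/
def P3 (M a S : Matrix (Idx g) (Idx g) K) : MvPolynomial (Crd g) K :=
  ∑ i, ∑ j, MvPolynomial.C (M i j) * (XM K g * CM a * (XM K g)ᵀ * CM S) i j

theorem ev_P3 (f : Pt g) (M a S : Matrix (Idx g) (Idx g) K) :
    MvPolynomial.aeval (crd f) (P3 M a S) =
      ∑ i, ∑ j, algebraMap K ℂ (M i j) * (f.1 * cm a * f.1ᵀ * cm S) i j := by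
  rw [P3, map_sum]
  refine Finset.sum_congr rfl fun i _ => ?_
  rw [map_sum]
  refine Finset.sum_congr rfl fun j _ => ?_
  rw [map_mul, ← ev_apply, map_mul, map_mul, map_mul, ev_XM, ev_CM, ev_CM, ev_XMt, MvPolynomial.aeval_C]

end Poly

/-- the inverse of a similitude -/
theorem sim_inv {h R J : Matrix (Idx g) (Idx g) ℂ} {ν : ℂ} (hν : ν ≠ 0) (hR : IsUnit R.det) (hh : IsUnit h.det)
    (hs : hᵀ * J * h = ν • R) : R⁻¹ * hᵀ * J = ν • h⁻¹ := by
  have e1 : h * h⁻¹ = 1 := Matrix.mul_nonsing_inv _ hh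
  have e2 : R⁻¹ * R = 1 := Matrix.nonsing_inv_mul _ hR
  calc R⁻¹ * hᵀ * J = R⁻¹ * (hᵀ * J * h) * h⁻¹ := by
        rw [Matrix.mul_assoc R⁻¹ (hᵀ * J * h), Matrix.mul_assoc (hᵀ * J), e1, Matrix.mul_one,
          Matrix.mul_assoc]
    _ = ν • h⁻¹ := by rw [hs, Matrix.mul_smul, e2, Matrix.smul_mul, Matrix.one_mul]

theorem sum_pair (f : Idx g × Idx g → ℂ) : ∑ k, f k = ∑ i, ∑ j, f (i, j) :=
  Fintype.sum_prod_type f

theorem unit_snd (f : (Pt g)ˣ) : (f : Pt g).2 ≠ 0 := by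
  intro h0
  have h1 : (f : Pt g).2 * ((f⁻¹ : (Pt g)ˣ) : Pt g).2 = 1 := congrArg Prod.snd f.mul_inv
  rw [h0, zero_mul] at h1
  exact zero_ne_one h1

theorem unit_det (f : (Pt g)ˣ) : IsUnit ((f : Pt g).1).det := by
  have h1 : (f : Pt g).1 * ((f⁻¹ : (Pt g)ˣ) : Pt g).1 = 1 := congrArg Prod.fst f.mul_inv
  have h2 := congrArg Matrix.det h1
  rw [Matrix.det_mul, Matrix.det_one] at h2
  exact IsUnit.of_mul_eq_one _ h2

theorem riem_det (A : AbVar g) : IsUnit A.riem.det := (leg_proof g A).2.2.1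

theorem toC_eq (a : Matrix (Idx g) (Idx g) ℚ) : cm a = AbVar.toC a := by
  ext i j
  simp [cm, AbVar.toC]

theorem GT_isQ (A : AbVar g) (t : Fin n → Matrix (Idx g) (Idx g) ℚ) : IsQGroup (GT A t) := by
  obtain ⟨T0, hT0⟩ := Gr_isQ A
  obtain ⟨R, hR⟩ := riem_rat A
  have hdet := riem_det A
  have hRi : cm (R⁻¹ : Matrix (Idx g) (Idx g) ℚ) = A.riem⁻¹ := by
    have hu : IsUnit R.det := by
      rw [isUnit_iff_ne_zero]
      intro h0
      have h1 : A.riem.det = 0 := by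
        rw [← hR]
        have : (cm R).det = algebraMap ℚ ℂ R.det := by
          unfold cm
          exact (RingHom.map_det (algebraMap ℚ ℂ) R).symm
        rw [this, h0, map_zero]
      rw [h1] at hdet
      exact not_isUnit_zero hdet
    have h2 : A.riem * cm (R⁻¹ : Matrix (Idx g) (Idx g) ℚ) = 1 := by
      rw [← hR]
      have h3 : cm R * cm (R⁻¹ : Matrix (Idx g) (Idx g) ℚ) = cm (R * R⁻¹) := by
        unfold cm
        exact (Matrix.map_mul (f := algebraMap ℚ ℂ)).symm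
      rw [h3, Matrix.mul_nonsing_inv _ hu]
      unfold cm
      exact Matrix.map_one _ (map_zero _) (map_one _)
    exact (Matrix.inv_eq_right_inv h2).symm
  have key : ∀ h : (Pt g)ˣ, h ∈ Gr A → ∀ i, (h : Pt g).1 * cm (t i * R⁻¹) * (h : Pt g).1ᵀ * cm R =
      (h : Pt g).2 • ((h : Pt g).1 * AbVar.toC (t i) * ((h⁻¹ : (Pt g)ˣ) : Pt g).1) := by
    intro h hh i
    have h1 := sim_inv (unit_snd h) hdet (unit_det h) hh.2
    have h2 : cm (t i * R⁻¹) = AbVar.toC (t i) * A.riem⁻¹ := by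
      rw [← hRi, ← toC_eq]
      unfold cm
      exact Matrix.map_mul (f := algebraMap ℚ ℂ)
    rw [h2, hR, ← unit_inv1]
    calc _ = (h : Pt g).1 * AbVar.toC (t i) * (A.riem⁻¹ * (h : Pt g).1ᵀ * A.riem) := by
          simp only [Matrix.mul_assoc]
      _ = _ := by rw [h1, Matrix.mul_smul]
  refine ⟨T0 ∪ {P | ∃ (i : Fin n) (M : Matrix (Idx g) (Idx g) ℚ),
    (∀ w ∈ DD (TB t), ∑ k, (M k.1 k.2 : ℂ) * w k = 0) ∧ P = P3 M (t i * R⁻¹) R}, fun h => ?_⟩
  rw [mem_GT]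
  constructor
  · rintro ⟨h1, h2⟩ P (hP | ⟨i, M, hM, rfl⟩)
    · exact (hT0 h).1 h1 P hP
    · rw [ev_P3, key h h1 i]
      have h3 := Submodule.smul_mem _ (h : Pt g).2 (h2 i)
      have h4 := hM (vc _) (vc_mem.2 h3)
      rw [sum_pair] at h4
      exact h4
  · intro hP
    have h1 : h ∈ Gr A := (hT0 h).2 fun P h => hP P (Or.inl h)
    refine ⟨h1, fun i => ?_⟩
    have h2 : (h : Pt g).2 • ((h : Pt g).1 * AbVar.toC (t i) * ((h⁻¹ : (Pt g)ˣ) : Pt g).1) ∈ TB t := by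
      rw [← vc_mem, mem_iff_Q _ (TB_stable t)]
      intro M hM
      have h3 := hP _ (Or.inr ⟨i, Matrix.of fun a b => M (a, b), hM, rfl⟩)
      rw [ev_P3, key h h1 i] at h3
      rw [sum_pair]
      exact h3
    have h3 := Submodule.smul_mem _ ((h : Pt g).2)⁻¹ h2
    rwa [smul_smul, inv_mul_cancel₀ (unit_snd h), one_smul] at h3

theorem OmegaT_iff (A : AbVar g) (t : Fin n → Matrix (Idx g) (Idx g) ℚ) (f : Pt g) :
    f ∈ OmegaT A t ↔ ∃ h ∈ GT A t, f = comparison A * (h : Pt g) := by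
  have e1 : A.per * A.per⁻¹ = 1 := Matrix.mul_nonsing_inv _ A.nondeg
  have e2 : A.per⁻¹ * A.per = 1 := Matrix.nonsing_inv_mul _ A.nondeg
  have key : ∀ (h : (Pt g)ˣ) (Y : Matrix (Idx g) (Idx g) ℂ),
      A.per⁻¹ * ((comparison A * (h : Pt g)).1 * Y * ((comparison A * (h : Pt g)).1)⁻¹) * A.per =
      (h : Pt g).1 * Y * ((h⁻¹ : (Pt g)ˣ) : Pt g).1 := by
    intro h Y
    have h1 : (comparison A * (h : Pt g)).1 = A.per * (h : Pt g).1 := rfl
    rw [h1, Matrix.mul_inv_rev, unit_inv1]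
    calc _ = (A.per⁻¹ * A.per) * ((h : Pt g).1 * Y * ((h⁻¹ : (Pt g)ˣ) : Pt g).1) * (A.per⁻¹ * A.per) := by
          simp only [Matrix.mul_assoc]
      _ = _ := by rw [e2, Matrix.one_mul, Matrix.mul_one]
  constructor
  · rintro ⟨h1, h2⟩
    obtain ⟨h, hh, rfl⟩ := (Omega_iff A f).1 h1
    refine ⟨h, ⟨hh, fun Y hY => ?_⟩, rfl⟩
    have h3 := (mem_TdR A t _).1 (h2 Y hY)
    rwa [key] at h3
  · rintro ⟨h, ⟨hh, h2⟩, rfl⟩
    refine ⟨(Omega_iff A _).2 ⟨h, hh, rfl⟩, fun Y hY => ?_⟩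
    rw [mem_TdR, key]
    exact h2 Y hY

theorem alg_lift (M : Idx g × Idx g → ℂ) (hM : ∀ k, IsAlgebraic ℚ (M k)) :
    ∃ M' : Matrix (Idx g) (Idx g) (algebraicClosure ℚ ℂ), ∀ i j, algebraMap _ ℂ (M' i j) = M (i, j) :=
  ⟨Matrix.of fun i j => ⟨M (i, j), mem_algebraicClosure_iff.mpr (hM (i, j))⟩, fun _ _ => rfl⟩

theorem rat_lift (a : Matrix (Idx g) (Idx g) ℚ) :
    ∃ a' : Matrix (Idx g) (Idx g) (algebraicClosure ℚ ℂ), cm a' = AbVar.toC a :=
  ⟨a.map (algebraMap ℚ _), by ext i j; simp [cm, AbVar.toC]⟩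

theorem OmegaT_closed (A : AbVar g) (t : Fin n → Matrix (Idx g) (Idx g) ℚ) (hdrb : DrbT A t) :
    IsClosedQbar (OmegaT A t) := by
  obtain ⟨T0, hT0, hOm⟩ := Omega_closed A
  obtain ⟨R, hR⟩ := riem_rat A
  obtain ⟨J, hJ⟩ := jm_alg g
  have hdet := riem_det A
  have hRt : AbVar.toC R = A.riem := by rw [← toC_eq, hR]
  -- the matrices `t_i R⁻¹`
  have hsi : ∀ i, ∃ a : Matrix (Idx g) (Idx g) (algebraicClosure ℚ ℂ),
      cm a = AbVar.toC (t i) * A.riem⁻¹ := by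
    intro i
    obtain ⟨a, ha⟩ := rat_lift (t i * R⁻¹)
    refine ⟨a, ?_⟩
    rw [ha, AbVar.toC_mul]
    congr 1
    have hu : IsUnit R.det := by
      rw [isUnit_iff_ne_zero]
      intro h0
      have h1 : A.riem.det = 0 := by
        rw [← hR]
        have : (cm R).det = algebraMap ℚ ℂ R.det := by
          unfold cm
          exact (RingHom.map_det (algebraMap ℚ ℂ) R).symm
        rw [this, h0, map_zero]
      rw [h1] at hdet
      exact not_isUnit_zero hdet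
    have h2 : A.riem * AbVar.toC (R⁻¹) = 1 := by
      rw [← hRt, ← AbVar.toC_mul, Matrix.mul_nonsing_inv _ hu]
      ext i j
      by_cases h : i = j
      · subst h; simp [AbVar.toC]
      · simp [AbVar.toC, Matrix.one_apply_ne h]
    exact (Matrix.inv_eq_right_inv h2).symm
  choose a ha using hsi
  let mp : MvPolynomial (Crd g) (algebraicClosure ℚ ℂ) → MvPolynomial (Crd g) ℂ :=
    MvPolynomial.map (algebraMap (algebraicClosure ℚ ℂ) ℂ)
  have hmp : ∀ (f : Pt g) P, MvPolynomial.eval (crd f) (mp P) = MvPolynomial.aeval (crd f) P := by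
    intro f P
    simp only [mp]
    rw [MvPolynomial.eval_map, MvPolynomial.aeval_def]
  have key : ∀ (f : (Pt g)ˣ), (f : Pt g).1ᵀ * Jm g * (f : Pt g).1 = (f : Pt g).2 • A.riem → ∀ i,
      (f : Pt g).1 * cm (a i) * (f : Pt g).1ᵀ * cm J =
      (f : Pt g).2 • ((f : Pt g).1 * AbVar.toC (t i) * ((f : Pt g).1)⁻¹) := by
    intro f hf i
    have h1 := sim_inv (unit_snd f) hdet (unit_det f) hf
    rw [ha, hJ]
    calc _ = (f : Pt g).1 * AbVar.toC (t i) * (A.riem⁻¹ * (f : Pt g).1ᵀ * Jm g) := by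
          simp only [Matrix.mul_assoc]
      _ = _ := by rw [h1, Matrix.mul_smul]
  refine ⟨T0 ∪ {P | ∃ (i : Fin n) (M : Matrix (Idx g) (Idx g) (algebraicClosure ℚ ℂ)),
    (∀ w ∈ DD (TdR A t), ∑ k, algebraMap _ ℂ (M k.1 k.2) * w k = 0) ∧ P = mp (P3 M (a i) J)}, ?_, ?_⟩
  · rintro P (hP | ⟨i, M, -, rfl⟩)
    · exact hT0 P hP
    · intro m
      simp only [mp]
      rw [MvPolynomial.coeff_map]
      exact mem_algebraicClosure_iff.mp (Subtype.property _)
  · ext f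
    have hOm' : f ∈ Omega A ↔ IsUnit f ∧ ∀ P ∈ T0, MvPolynomial.eval (crd f) P = 0 := by
      rw [hOm]; rfl
    constructor
    · rintro ⟨h1, h2⟩
      obtain ⟨h3, h4⟩ := hOm'.1 h1
      refine ⟨h3, ?_⟩
      rintro P (hP | ⟨i, M, hM, rfl⟩)
      · exact h4 P hP
      · obtain ⟨f, rfl⟩ := h3
        rw [hmp, ev_P3, key f h1.2.2 i]
        have h5 := Submodule.smul_mem _ (f : Pt g).2 (h2 _ (Submodule.subset_span ⟨i, rfl⟩))
        have h6 := hM (vc _) (vc_mem.2 h5)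
        rw [sum_pair] at h6
        exact h6
    · rintro ⟨h3, h4⟩
      have h1 : f ∈ Omega A := hOm'.2 ⟨h3, fun P hP => h4 P (Or.inl hP)⟩
      refine ⟨h1, ?_⟩
      obtain ⟨f, rfl⟩ := h3
      have h5 : ∀ i, (f : Pt g).1 * AbVar.toC (t i) * ((f : Pt g).1)⁻¹ ∈ TdR A t := by
        intro i
        have h6 : (f : Pt g).2 • ((f : Pt g).1 * AbVar.toC (t i) * ((f : Pt g).1)⁻¹) ∈ TdR A t := by
          rw [← vc_mem, mem_iff_A _ (TdR_stable A t hdrb) galA_symm]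
          intro M hMa hM
          obtain ⟨M', hM'⟩ := alg_lift M hMa
          have h7 := h4 _ (Or.inr ⟨i, M', fun w hw => by
            rw [← hM w hw]
            exact Finset.sum_congr rfl fun k _ => by rw [hM' k.1 k.2], rfl⟩)
          rw [hmp, ev_P3, key f h1.2.2 i] at h7
          rw [sum_pair]
          rw [← h7]
          exact Finset.sum_congr rfl fun r _ => Finset.sum_congr rfl fun s _ => by rw [hM' r s]; rfl
        have h8 := Submodule.smul_mem _ ((f : Pt g).2)⁻¹ h6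
        rwa [smul_smul, inv_mul_cancel₀ (unit_snd f), one_smul] at h8
      intro Y hY
      induction hY using Submodule.span_induction with
      | mem x hx =>
        obtain ⟨i, rfl⟩ := hx
        exact h5 i
      | zero => rw [Matrix.mul_zero, Matrix.zero_mul]; exact Submodule.zero_mem _
      | add a b _ _ ha hb => rw [mul_add, add_mul]; exact Submodule.add_mem _ ha hb
      | smul c a _ ha => rw [Matrix.mul_smul, Matrix.smul_mul]; exact Submodule.smul_mem _ c ha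

/-- If the de Rham-Betti group of `A` is the group of all similitudes which commute with the endomorphisms of
`A` and normalize `T`, then the torsor `OmegaT` is the smallest subtorsor containing the Zariski closure of
the comparison isomorphism. -/
theorem torsorT (A : AbVar g) (t : Fin n → Matrix (Idx g) (Idx g) ℚ) (hdrb : DrbT A t)
    (hG : ∀ (x : GL (Idx g) ℂ) (ν : ℂˣ), (∀ α ∈ A.EndQ, x.val * AbVar.toC α = AbVar.toC α * x.val) →
      (∀ Y ∈ TB t, x.val * Y * (x⁻¹).val ∈ TB t) → x.valᵀ * A.riem * x.val = ν.val • A.riem →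
      InGdRB A x ν) :
    IsLeast {S : Set (Pt g) | IsSubtorsor S ∧ ZX A ⊆ S} (OmegaT A t) := by
  have hcm : comparison A ∈ OmegaT A t :=
    (OmegaT_iff A t _).2 ⟨1, (GT A t).one_mem, (mul_one _).symm⟩
  refine ⟨⟨⟨OmegaT_closed A t hdrb, GT A t, GT_isQ A t, ?_⟩,
    ZX_sub A (OmegaT_closed A t hdrb) hcm⟩, ?_⟩
  · obtain ⟨c, hc⟩ := comparison_unit A
    refine ⟨c, ?_⟩
    ext f
    rw [OmegaT_iff, hc]
    rfl
  · rintro S ⟨hS, hZ⟩ f hf
    have hcS : comparison A ∈ S := hZ ⟨comparison_unit A, fun _ _ h => h⟩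
    obtain ⟨h, hh, rfl⟩ := (OmegaT_iff A t f).mp hf
    let y := MulEquiv.prodUnits h
    have h1 : InGdRB A y.1 y.2 := hG y.1 y.2 hh.1.1 hh.2 hh.1.2
    exact core A hS hcS y.1 y.2 h1

end

end Pool.Agent.K3T
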