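import Pool.Agent.ABH.Alg
import Pool.Agent.K3T.Tor
import Pool.Agent.K3T.Cas

/-!
# The Hodge class of a quadratic space in the endomorphisms

The group of the Hodge classes with algebraic de Rham coordinates normalizes `T`.
-/

open scoped BigOperators
open Matrix

namespace Pool.Agent.K3T

open Pool.Agent.DRB Pool.Agent.ABH
open Pool.Agent.ABT (Pt cm riem_rat)

noncomputable section

variable {g n : ℕ}

/-! ### the Hodge type -/

/-- the matrix of `μ(2)` in the de Rham basis -/
theorem two_entries (A : AbVar g) :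
    (∀ i j : Fin g, (1 + A.per * SPH.HPI_.pi0 A * A.per⁻¹) (Sum.inl i) (Sum.inr j) = 0) ∧
    (∀ i j : Fin g, (1 + A.per * SPH.HPI_.pi0 A * A.per⁻¹) (Sum.inl i) (Sum.inl j) =
      if i = j then 2 else 0) ∧
    (∀ i j : Fin g, (1 + A.per * SPH.HPI_.pi0 A * A.per⁻¹) (Sum.inr i) (Sum.inr j) =
      if i = j then 1 else 0) := by
  have e1 : A.per * A.per⁻¹ = 1 := Matrix.mul_nonsing_inv _ A.nondeg
  set Pm := A.per * SPH.HPI_.pi0 A * A.per⁻¹ with hPm
  have h1 : ∀ (i : Fin g) (j : Idx g), (1 - Pm) (Sum.inl i) j = 0 := by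
    intro i j
    have h2 : 1 - Pm = (A.per * (1 - SPH.HPI_.pi0 A)) * A.per⁻¹ := by
      rw [Matrix.mul_sub, Matrix.mul_one, Matrix.sub_mul, e1]
    rw [h2, Matrix.mul_apply]
    exact Finset.sum_eq_zero fun k _ => by rw [pi_inl, zero_mul]
  have h2 : ∀ (a : Idx g) (j : Fin g), Pm a (Sum.inr j) = 0 := by
    intro a j
    have h3 : A.per⁻¹ *ᵥ (Pi.single (Sum.inr j) 1) ∈ DRB.SigX.kk A := by
      rw [DRB.SigX.mem_kk]
      funext i
      show (A.per *ᵥ (A.per⁻¹ *ᵥ (Pi.single (Sum.inr j) 1))) (Sum.inl i) = 0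
      rw [Matrix.mulVec_mulVec, e1, Matrix.one_mulVec]
      simp
    have h4 := SPH.HPI_.pi0_kk A h3
    have h5 : (Pm *ᵥ (Pi.single (Sum.inr j) 1)) a = 0 := by
      rw [hPm, Matrix.mul_assoc, ← Matrix.mulVec_mulVec, ← Matrix.mulVec_mulVec, h4, Matrix.mulVec_zero]
      rfl
    rw [Matrix.mulVec_single_one] at h5
    exact h5
  refine ⟨fun i j => ?_, fun i j => ?_, fun i j => ?_⟩
  · rw [Matrix.add_apply, h2, add_zero]
    exact Matrix.one_apply_ne (by simp)
  · have h3 := h1 i (Sum.inl j)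
    rw [Matrix.sub_apply, sub_eq_zero] at h3
    rw [Matrix.add_apply, ← h3]
    by_cases h : i = j
    · subst h
      rw [Matrix.one_apply_eq, if_pos rfl]
      norm_num
    · rw [Matrix.one_apply_ne (by simpa using h), if_neg h, add_zero]
  · rw [Matrix.add_apply, h2, add_zero]
    by_cases h : i = j
    · subst h
      rw [Matrix.one_apply_eq, if_pos rfl]
    · rw [Matrix.one_apply_ne (by simpa using h), if_neg h]

/-- If `μ(2)` acts on a class by `2 ^ k` then the class is in the `k`-th step of the Hodge filtration. -/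
theorem type_of_mu (A : AbVar g) {k : ℕ} {α β : (Fin (2 * k) → Idx g) → ℂ} (c : ℂ)
    (hr : pb A.per α = c • β) (hz : pb (xz (SPH.HPI_.pi0 A) 2) β = (2 : ℂ) ^ k • β) :
    ∀ I, α I ≠ 0 → k ≤ (Finset.univ.filter fun l => (I l).isLeft = true).card := by
  classical
  have e1 : A.per * A.per⁻¹ = 1 := Matrix.mul_nonsing_inv _ A.nondeg
  have e2 : A.per⁻¹ * A.per = 1 := Matrix.nonsing_inv_mul _ A.nondeg
  obtain ⟨hD1, hD2, hD3⟩ := two_entries A
  obtain ⟨D, hD⟩ : ∃ D, D = 1 + A.per * SPH.HPI_.pi0 A * A.per⁻¹ := ⟨_, rfl⟩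
  rw [← hD] at hD1 hD2 hD3
  -- the action on `α`
  have hact : pb D α = (2 : ℂ) ^ k • α := by
    have h1 : D * A.per = A.per * xz (SPH.HPI_.pi0 A) 2 := by
      rw [hD, xz, Matrix.add_mul, Matrix.one_mul, Matrix.mul_assoc (A.per * _), e2, Matrix.mul_one,
        Matrix.mul_add, Matrix.mul_one]
      have : ((2 : ℂ) - 1) = 1 := by norm_num
      rw [this, one_smul]
    have h2 : pb A.per (pb D α) = (2 : ℂ) ^ k • pb A.per α := by
      rw [← pb_mul, h1, pb_mul, hr, pb_smul, hz, smul_smul, smul_smul, mul_comm c]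
    have h3 := congrArg (pb A.per⁻¹) h2
    rw [← pb_mul, e1, pb_one, pb_smul, ← pb_mul, e1, pb_one] at h3
    exact h3
  -- induction on the number of holomorphic factors
  have key : ∀ m : ℕ, ∀ J : Fin (2 * k) → Idx g,
      (Finset.univ.filter fun l => (J l).isLeft = true).card = m → m < k → α J = 0 := by
    intro m
    induction m using Nat.strong_induction_on with
    | _ m ih =>
    intro J hJ hm
    have h1 := congrFun hact J
    have h2 : pb D α J = α J * 2 ^ m := by
      rw [pb, Finset.sum_eq_single J]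
      · congr 1
        have h3 : ∀ l, D (J l) (J l) = if (J l).isLeft = true then 2 else 1 := by
          intro l
          rcases J l with a | a
          · rw [hD2, if_pos rfl]; rfl
          · rw [hD3, if_pos rfl]; rfl
        rw [Finset.prod_congr rfl fun l _ => h3 l, Finset.prod_ite, Finset.prod_const, Finset.prod_const_one,
          mul_one, hJ]
      · intro I _ hI
        by_cases hp : ∏ l, D (I l) (J l) = 0
        · rw [hp, mul_zero]
        · have hne : ∀ l, D (I l) (J l) ≠ 0 := fun l h => hp (Finset.prod_eq_zero (Finset.mem_univ l) h)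
          have hc : ∀ l, I l = J l ∨ ((I l).isLeft = false ∧ (J l).isLeft = true) := by
            intro l
            have h3 := hne l
            rcases hIl : I l with a | a <;> rcases hJl : J l with b | b
            · rw [hIl, hJl, hD2] at h3
              left
              by_cases h : a = b
              · rw [h]
              · rw [if_neg h] at h3; exact absurd rfl h3
            · rw [hIl, hJl, hD1] at h3
              exact absurd rfl h3
            · right; exact ⟨rfl, rfl⟩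
            · rw [hIl, hJl, hD3] at h3
              left
              by_cases h : a = b
              · rw [h]
              · rw [if_neg h] at h3; exact absurd rfl h3
          have hlt : (Finset.univ.filter fun l => (I l).isLeft = true).card <
              (Finset.univ.filter fun l => (J l).isLeft = true).card := by
            refine Finset.card_lt_card ?_
            rw [Finset.ssubset_iff_of_subset]
            · obtain ⟨l, hl⟩ : ∃ l, I l ≠ J l := by
                by_contra h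
                push Not at h
                exact hI (funext h)
              rcases hc l with h | ⟨h, h'⟩
              · exact absurd h hl
              · refine ⟨l, Finset.mem_filter.2 ⟨Finset.mem_univ _, h'⟩, ?_⟩
                intro h''
                rw [Finset.mem_filter, h] at h''
                exact absurd h''.2 (by simp)
            · intro l hl
              rw [Finset.mem_filter] at hl ⊢
              refine ⟨Finset.mem_univ _, ?_⟩
              rcases hc l with h | ⟨h, h'⟩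
              · rw [← h]; exact hl.2
              · exact h'
          rw [hJ] at hlt
          rw [ih _ hlt I rfl (lt_trans hlt hm), zero_mul]
      · intro h
        exact absurd (Finset.mem_univ _) h
    rw [h2] at h1
    have h4 : α J * ((2 : ℂ) ^ m - 2 ^ k) = 0 := by
      have h5 : α J * 2 ^ m = 2 ^ k * α J := h1
      rw [mul_sub, h5]
      ring
    rcases mul_eq_zero.1 h4 with h | h
    · exact h
    · exfalso
      have h5 : (2 : ℂ) ^ m = 2 ^ k := sub_eq_zero.1 h
      have h6 : (2 : ℕ) ^ m = 2 ^ k := by exact_mod_cast h5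
      exact absurd (Nat.pow_right_injective (le_refl 2) h6) hm.ne
  intro I hI
  by_contra h
  push Not at h
  exact hI (key _ I rfl h)

/-! ### the Hodge class -/

theorem isAlg_of_fixed (z : ℂ) (h : ∀ τ ∈ GalA, τ z = z) : IsAlgebraic ℚ z := by
  refine aut2_proof z ?_
  have h1 : {w : ℂ | ∃ τ ∈ GalA, w = τ z} ⊆ {z} := by
    rintro w ⟨τ, hτ, rfl⟩
    exact h τ hτ
  exact (Set.countable_singleton z).mono h1

/-- The relations of the products. -/
def Cliff (t : Fin n → Matrix (Idx g) (Idx g) ℚ) (q : Fin n → ℚ) (E : Matrix (Idx g) (Idx g) ℚ) : Prop :=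
  ∀ i j, t i * t j + t j * t i = (if i = j then 2 * q i else 0) • E

theorem cliffC {t : Fin n → Matrix (Idx g) (Idx g) ℚ} {q : Fin n → ℚ} {E : Matrix (Idx g) (Idx g) ℚ}
    (h : Cliff t q E) (i j : Fin n) : AbVar.toC (t i) * AbVar.toC (t j) + AbVar.toC (t j) * AbVar.toC (t i) =
      (if i = j then 2 * (q i : ℂ) else 0) • AbVar.toC E := by
  rw [← AbVar.toC_mul, ← AbVar.toC_mul, ← AbVar.toC_add, h i j]
  ext a b
  split_ifs <;> simp [AbVar.toC]

theorem cliffConj {N : Fin n → Matrix (Idx g) (Idx g) ℂ} {q : Fin n → ℂ} {E : Matrix (Idx g) (Idx g) ℂ}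
    (h : ∀ i j, N i * N j + N j * N i = (if i = j then 2 * q i else 0) • E)
    {X Y : Matrix (Idx g) (Idx g) ℂ} (hYX : Y * X = 1) (i j : Fin n) :
    (X * N i * Y) * (X * N j * Y) + (X * N j * Y) * (X * N i * Y) =
      (if i = j then 2 * q i else 0) • (X * E * Y) := by
  have h1 : ∀ P Q : Matrix (Idx g) (Idx g) ℂ, (X * P * Y) * (X * Q * Y) = X * (P * Q) * Y := by
    intro P Q
    calc _ = X * P * (Y * X) * Q * Y := by simp only [Matrix.mul_assoc]
      _ = _ := by rw [hYX, Matrix.mul_one]; simp only [Matrix.mul_assoc]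
  rw [h1, h1, ← Matrix.add_mul, ← Matrix.mul_add, h, Matrix.mul_smul, Matrix.smul_mul]

/-- the Hodge class of `T` -/
theorem isHodge_cas (A : AbVar g) (t : Fin n → Matrix (Idx g) (Idx g) ℚ) (q : Fin n → ℚ)
    (E R : Matrix (Idx g) (Idx g) ℚ) (hR : cm R = A.riem) (hE : A.IsEnd E) (hE0 : E ≠ 0) (hq : ∀ i, q i ≠ 0)
    (hC : Cliff t q E) (hdrb : DrbT A t)
    (hhdg : ∀ (z : ℂˣ) (x : GL (Idx g) ℂ), A.IsMu z x → ∀ i,
      x.val * AbVar.toC (t i) * (x⁻¹).val ∈ TB t) :
    IsHodgeClass A 2 (cas (fun i => (q i : ℂ)) fun i => Jm g * (A.per * AbVar.toC (t i) * A.per⁻¹))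
      (fun J => ∑ i, (q i)⁻¹ * ((R * t i) (J 0) (J 1) * (R * t i) (J 2) (J 3))) := by
  have e1 : A.per * A.per⁻¹ = 1 := Matrix.mul_nonsing_inv _ A.nondeg
  have e2 : A.per⁻¹ * A.per = 1 := Matrix.nonsing_inv_mul _ A.nondeg
  obtain ⟨-, hL, hdet, -⟩ := leg_proof g A
  have hqC : ∀ i, (q i : ℂ) ≠ 0 := fun i => by exact_mod_cast hq i
  have hEC : AbVar.toC E ≠ 0 := by
    intro h
    apply hE0
    ext a b
    have h1 := congrFun (congrFun h a) b
    have h2 : ((E a b : ℚ) : ℂ) = 0 := h1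
    exact_mod_cast h2
  have hβ : (fun J => ((∑ i, (q i)⁻¹ * ((R * t i) (J 0) (J 1) * (R * t i) (J 2) (J 3)) : ℚ) : ℂ)) =
      cas (fun i => (q i : ℂ)) fun i => A.riem * AbVar.toC (t i) := by
    funext J
    have h1 : ∀ i a b, (A.riem * AbVar.toC (t i)) a b = (((R * t i) a b : ℚ) : ℂ) := by
      intro i a b
      rw [← hR, toC_eq, ← AbVar.toC_mul]
      rfl
    show _ = ∑ i, ((q i : ℂ))⁻¹ * ((A.riem * AbVar.toC (t i)) (J 0) (J 1) *
      (A.riem * AbVar.toC (t i)) (J 2) (J 3))
    simp only [h1]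
    push_cast
    rfl
  have hrat : pb A.per (cas (fun i => (q i : ℂ)) fun i => Jm g * (A.per * AbVar.toC (t i) * A.per⁻¹)) =
      ((2 * Real.pi * Complex.I) ^ 2 : ℂ) • cas (fun i => (q i : ℂ)) fun i => A.riem * AbVar.toC (t i) := by
    rw [pb_cas, ← cas_smul]
    congr 1
    funext i
    calc A.perᵀ * (Jm g * (A.per * AbVar.toC (t i) * A.per⁻¹)) * A.per
        = (A.perᵀ * Jm g * A.per) * AbVar.toC (t i) * (A.per⁻¹ * A.per) := by
          simp only [Matrix.mul_assoc]
      _ = _ := by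
          rw [e2, Matrix.mul_one, hL, Matrix.smul_mul]
          rfl
  refine ⟨?_, ?_, ?_⟩
  · -- algebraic
    intro I
    refine isAlg_of_fixed _ fun τ hτ => ?_
    obtain ⟨ρ, r1, r2, r3⟩ := hE
    have hEa : A.per * AbVar.toC E * A.per⁻¹ = ρ := by
      rw [r3, Matrix.mul_assoc, e1, Matrix.mul_one]
    have hEτ : (A.per * AbVar.toC E * A.per⁻¹).map τ = A.per * AbVar.toC E * A.per⁻¹ := by
      rw [hEa]
      ext a b
      rw [Matrix.map_apply]
      exact hτ _ (r1 a b)
    have hE1 : A.per * AbVar.toC E * A.per⁻¹ ≠ 0 := by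
      intro h
      apply hEC
      calc AbVar.toC E = (A.per⁻¹ * A.per) * AbVar.toC E * (A.per⁻¹ * A.per) := by
            rw [e2, Matrix.one_mul, Matrix.mul_one]
        _ = A.per⁻¹ * (A.per * AbVar.toC E * A.per⁻¹) * A.per := by simp only [Matrix.mul_assoc]
        _ = 0 := by rw [h, Matrix.mul_zero, Matrix.zero_mul]
    have hN := cliffConj (cliffC hC) e2
    have hN' : ∀ i j, (A.per * AbVar.toC (t i) * A.per⁻¹).map τ * (A.per * AbVar.toC (t j) * A.per⁻¹).map τ +
        (A.per * AbVar.toC (t j) * A.per⁻¹).map τ * (A.per * AbVar.toC (t i) * A.per⁻¹).map τ =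
        (if i = j then 2 * (q i : ℂ) else 0) • (A.per * AbVar.toC E * A.per⁻¹) := by
      intro i j
      have h1 := congrArg (fun M : Matrix (Idx g) (Idx g) ℂ => M.map τ) (hN i j)
      have h2 : ∀ P Q : Matrix (Idx g) (Idx g) ℂ, (P * Q).map τ = P.map τ * Q.map τ := by
        intro P Q
        exact Matrix.map_mul (f := (τ : ℂ →+* ℂ))
      have h3 : ∀ P Q : Matrix (Idx g) (Idx g) ℂ, (P + Q).map τ = P.map τ + Q.map τ := by
        intro P Q
        ext a b
        simp
      have h4 : ∀ (c : ℂ) (P : Matrix (Idx g) (Idx g) ℂ), (c • P).map τ = τ c • P.map τ := by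
        intro c P
        ext a b
        simp
      simp only [h3, h4, h2 (A.per * AbVar.toC (t i) * A.per⁻¹), h2 (A.per * AbVar.toC (t j) * A.per⁻¹)] at h1
      rw [h1, hEτ]
      congr 1
      split_ifs
      · rw [map_mul, map_ratCast, map_ofNat]
      · exact map_zero τ
    have hsp : ∀ i, (A.per * AbVar.toC (t i) * A.per⁻¹).map τ ∈
        Submodule.span ℂ (Set.range fun j => A.per * AbVar.toC (t j) * A.per⁻¹) := by
      intro i
      have h1 : A.per * AbVar.toC (t i) * A.per⁻¹ ∈ TdR A t := Submodule.subset_span ⟨i, rfl⟩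
      exact TdR_stable A t hdrb τ hτ (vc _) (vc_mem.2 h1)
    obtain ⟨s, hs1, hs2⟩ := change hE1 hN hN' hsp
    have h5 : cas (fun i => (q i : ℂ)) (fun i => Jm g * (A.per * AbVar.toC (t i) * A.per⁻¹).map τ) =
        cas (fun i => (q i : ℂ)) fun i => Jm g * (A.per * AbVar.toC (t i) * A.per⁻¹) := by
      refine cas_change _ hqC s hs2 fun i => ?_
      rw [hs1 i, Matrix.mul_sum]
      exact Finset.sum_congr rfl fun j _ => by rw [Matrix.mul_smul]
    have hJτ : (Jm g).map τ = Jm g := by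
      ext a b
      rw [Matrix.map_apply]
      exact hτ _ (jm_isAlg a b)
    have h6 : ∀ i a b, τ ((Jm g * (A.per * AbVar.toC (t i) * A.per⁻¹)) a b) =
        (Jm g * (A.per * AbVar.toC (t i) * A.per⁻¹).map τ) a b := by
      intro i a b
      have h7 : (Jm g * (A.per * AbVar.toC (t i) * A.per⁻¹)).map τ =
          (Jm g).map τ * (A.per * AbVar.toC (t i) * A.per⁻¹).map τ :=
        Matrix.map_mul (f := (τ : ℂ →+* ℂ))
      rw [hJτ] at h7
      rw [← h7, Matrix.map_apply]
    rw [← h5]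
    conv_lhs => rw [h5]
    show τ (∑ i, ((q i : ℂ))⁻¹ * ((Jm g * (A.per * AbVar.toC (t i) * A.per⁻¹)) (I 0) (I 1) *
      (Jm g * (A.per * AbVar.toC (t i) * A.per⁻¹)) (I 2) (I 3))) =
      ∑ i, ((q i : ℂ))⁻¹ * ((Jm g * (A.per * AbVar.toC (t i) * A.per⁻¹).map τ) (I 0) (I 1) *
      (Jm g * (A.per * AbVar.toC (t i) * A.per⁻¹).map τ) (I 2) (I 3))
    rw [map_sum]
    refine Finset.sum_congr rfl fun i _ => ?_
    rw [map_mul, map_mul, h6, h6, map_inv₀, map_ratCast]
  · -- rational
    intro J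
    have h1 := congrFun hrat J
    rw [← hβ] at h1
    exact h1
  · -- Hodge type
    refine type_of_mu A _ hrat ?_
    have h20 : (2 : ℂ) ≠ 0 := two_ne_zero
    obtain ⟨x, hx⟩ := SPH.HPI_.exists_mu A (Units.mk0 2 h20)
    have hx2 : x.val = xz (SPH.HPI_.pi0 A) 2 := (SPH.HPI_.isMu_iff A _ x).1 hx
    obtain ⟨y, hy⟩ := SPH.HPI_.exists_mu A (Units.mk0 2 h20)⁻¹
    have hxx : x.val * (x⁻¹).val = 1 := by rw [← Units.val_mul, mul_inv_cancel, Units.val_one]
    have hxx' : (x⁻¹).val * x.val = 1 := by rw [← Units.val_mul, inv_mul_cancel, Units.val_one]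
    have hinv : y = x⁻¹ := by
      have h1 : x * y = 1 := by
        apply Units.ext
        rw [Units.val_mul, hx2, (SPH.HPI_.isMu_iff A _ y).1 hy, Units.val_one]
        refine SPH.HPI_.mul_aux (SPH.HPI_.pi0_sq A) _ _ ?_
        exact (Units.mk0 (2 : ℂ) h20).mul_inv
      exact (inv_eq_of_mul_eq_one_right h1).symm
    have hsp : ∀ i, (x⁻¹).val * AbVar.toC (t i) * x.val ∈
        Submodule.span ℂ (Set.range fun j => AbVar.toC (t j)) := by
      intro i
      have h1 := hhdg _ y hy i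
      rw [hinv, inv_inv] at h1
      exact h1
    have hsim := SPG.MU_.mu_sim leg_proof hx
    have hcomm := SPG.MU_.mu_comm hx E hE
    have hEx : (x⁻¹).val * AbVar.toC E * x.val = AbVar.toC E := by
      rw [Matrix.mul_assoc, ← hcomm, ← Matrix.mul_assoc, hxx', Matrix.one_mul]
    have hN' := cliffConj (cliffC hC) hxx
    rw [hEx] at hN'
    obtain ⟨s, hs1, hs2⟩ := change hEC (cliffC hC) hN' hsp
    rw [← hx2, pb_cas]
    have h3 : ∀ i, x.valᵀ * (A.riem * AbVar.toC (t i)) * x.val =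
        (2 : ℂ) • (A.riem * ((x⁻¹).val * AbVar.toC (t i) * x.val)) := by
      intro i
      calc x.valᵀ * (A.riem * AbVar.toC (t i)) * x.val
          = (x.valᵀ * A.riem * (x.val * (x⁻¹).val)) * AbVar.toC (t i) * x.val := by
            rw [hxx, Matrix.mul_one]
            simp only [Matrix.mul_assoc]
        _ = (x.valᵀ * A.riem * x.val) * ((x⁻¹).val * AbVar.toC (t i) * x.val) := by
            simp only [Matrix.mul_assoc]
        _ = _ := by
            rw [hsim, Matrix.smul_mul]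
            rfl
    simp only [h3]
    rw [cas_smul]
    congr 1
    refine cas_change _ hqC s hs2 fun i => ?_
    rw [hs1 i, Matrix.mul_sum]
    exact Finset.sum_congr rfl fun j _ => by rw [Matrix.mul_smul]

/-- The group of the Hodge classes normalizes `T`. -/
theorem gh_norm (A : AbVar g) (t : Fin n → Matrix (Idx g) (Idx g) ℚ) (q : Fin n → ℚ)
    (E : Matrix (Idx g) (Idx g) ℚ) (hE : A.IsEnd E) (hE0 : E.trace ≠ 0) (hq : ∀ i, q i ≠ 0)
    (hC : Cliff t q E) (hdrb : DrbT A t)
    (hhdg : ∀ (z : ℂˣ) (x : GL (Idx g) ℂ), A.IsMu z x → ∀ i,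
      x.val * AbVar.toC (t i) * (x⁻¹).val ∈ TB t)
    (h : (Pt g)ˣ) (hh : h ∈ GH A) (i : Fin n) :
    ((h⁻¹ : (Pt g)ˣ) : Pt g).1 * AbVar.toC (t i) * (h : Pt g).1 ∈ TB t := by
  obtain ⟨R, hR⟩ := riem_rat A
  have hdet := riem_det A
  have hE0' : E ≠ 0 := by
    rintro rfl
    exact hE0 (Matrix.trace_zero _ _)
  have hqC : ∀ i, (q i : ℂ) ≠ 0 := fun i => by exact_mod_cast hq i
  have hEt : (AbVar.toC E).trace ≠ 0 := by
    have h1 : (AbVar.toC E).trace = ((E.trace : ℚ) : ℂ) := by
      rw [Matrix.trace, Matrix.trace]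
      push_cast
      rfl
    rw [h1]
    exact_mod_cast hE0
  have hcl := isHodge_cas A t q E R hR hE hE0' hq hC hdrb hhdg
  have h1 := hh 2 _ _ hcl
  have hβ : cq (fun J : Fin (2 * 2) → Idx g =>
        ∑ i, (q i)⁻¹ * ((R * t i) (J 0) (J 1) * (R * t i) (J 2) (J 3))) =
      cas (fun i => (q i : ℂ)) fun i => A.riem * AbVar.toC (t i) := by
    funext J
    have h1 : ∀ i a b, (A.riem * AbVar.toC (t i)) a b = (((R * t i) a b : ℚ) : ℂ) := by
      intro i a b
      rw [← hR, toC_eq, ← AbVar.toC_mul]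
      rfl
    show ((∑ i, (q i)⁻¹ * ((R * t i) (J 0) (J 1) * (R * t i) (J 2) (J 3)) : ℚ) : ℂ) =
      ∑ i, ((q i : ℂ))⁻¹ * ((A.riem * AbVar.toC (t i)) (J 0) (J 1) *
      (A.riem * AbVar.toC (t i)) (J 2) (J 3))
    simp only [h1]
    push_cast
    rfl
  rw [hβ, pb_cas] at h1
  have e1 : (h : Pt g).1 * ((h⁻¹ : (Pt g)ˣ) : Pt g).1 = 1 := congrArg Prod.fst h.mul_inv
  have e2 : ((h⁻¹ : (Pt g)ˣ) : Pt g).1 * (h : Pt g).1 = 1 := congrArg Prod.fst h.inv_mul
  have hsim := GH_sim hh
  have h3 : ∀ i, (h : Pt g).1ᵀ * (A.riem * AbVar.toC (t i)) * (h : Pt g).1 =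
      (h : Pt g).2 • (A.riem * (((h⁻¹ : (Pt g)ˣ) : Pt g).1 * AbVar.toC (t i) * (h : Pt g).1)) := by
    intro i
    calc (h : Pt g).1ᵀ * (A.riem * AbVar.toC (t i)) * (h : Pt g).1
        = ((h : Pt g).1ᵀ * A.riem * ((h : Pt g).1 * ((h⁻¹ : (Pt g)ˣ) : Pt g).1)) * AbVar.toC (t i) *
          (h : Pt g).1 := by
          rw [e1, Matrix.mul_one]
          simp only [Matrix.mul_assoc]
      _ = ((h : Pt g).1ᵀ * A.riem * (h : Pt g).1) *
          (((h⁻¹ : (Pt g)ˣ) : Pt g).1 * AbVar.toC (t i) * (h : Pt g).1) := by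
          simp only [Matrix.mul_assoc]
      _ = _ := by rw [hsim, Matrix.smul_mul]
  simp only [h3] at h1
  rw [cas_smul] at h1
  have h4 := smul_right_injective _ (pow_ne_zero 2 (unit_snd h)) h1
  have hcomm := GH_comm hh E hE
  have hEx : ((h⁻¹ : (Pt g)ˣ) : Pt g).1 * AbVar.toC E * (h : Pt g).1 = AbVar.toC E := by
    rw [Matrix.mul_assoc, ← hcomm, ← Matrix.mul_assoc, e2, Matrix.one_mul]
  have hN' := cliffConj (cliffC hC) e1
  rw [hEx] at hN'
  exact mem_of_cas hqC (Matrix.nonsing_inv_mul _ hdet) hEt hN' h4 i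

end

end Pool.Agent.K3T
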